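import Pool.Agent.H848.G.R_seed8.H921R2.TatePole.Dedekind
import Pool.Agent.H848.G.R_seed8.W540.BE.Size
import Mathlib.FieldTheory.Finite.Extension

/-!
# The primes of a number field, and multisets of eigenvalues

The lemmas `sum_poly`, `sum_ind`, `mult_unique`, `one_lt_norm`, `exists_ext` are from the library module
`W353.PV.Eig`, and `EP_finsupp` is from `W540.BE.Core`.
-/

set_option autoImplicit false

namespace Pool.Agent.H848.SH

open Complex Filter Topology ComplexConjugate NumberField IsDedekindDomain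
open Pool.Agent.H921R2.TatePole (nm two_le_nm nm_summable prime_sum_bdd Lam)
open Pool.Agent.W540.BE (EP NormSys wP_nonneg)

theorem sum_poly {D : ℕ} {β β' : ℕ → Multiset ℂ}
    (hs : ∀ e : ℕ, 1 ≤ e →
      ∑ k ∈ Finset.range D, (-1 : ℂ) ^ k * ((β k).map (fun z => z ^ e)).sum =
      ∑ k ∈ Finset.range D, (-1 : ℂ) ^ k * ((β' k).map (fun z => z ^ e)).sum)
    (g : Polynomial ℂ) :
    ∑ k ∈ Finset.range D, (-1 : ℂ) ^ k * ((β k).map (fun z => z * g.eval z)).sum =
      ∑ k ∈ Finset.range D, (-1 : ℂ) ^ k * ((β' k).map (fun z => z * g.eval z)).sum := by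
  induction g using Polynomial.induction_on' with
  | add p q hp hq =>
    simp only [Polynomial.eval_add, mul_add, Multiset.sum_map_add, Finset.sum_add_distrib]
    rw [hp, hq]
  | monomial n c =>
    have h1 := hs (n + 1) (by omega)
    have e : ∀ z : ℂ, z * (Polynomial.monomial n c).eval z = c * z ^ (n + 1) := by
      intro z
      rw [Polynomial.eval_monomial]
      ring
    simp only [e, Multiset.sum_map_mul_left]
    have e2 : ∀ γ : ℕ → Multiset ℂ, ∑ k ∈ Finset.range D, (-1 : ℂ) ^ k *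
        (c * ((γ k).map (fun z => z ^ (n + 1))).sum) =
        c * ∑ k ∈ Finset.range D, (-1 : ℂ) ^ k * ((γ k).map (fun z => z ^ (n + 1))).sum := by
      intro γ
      rw [Finset.mul_sum]
      exact Finset.sum_congr rfl fun k _ => by ring
    rw [e2, e2, h1]

theorem sum_ind (s : Multiset ℂ) (z : ℂ) (f : ℂ → ℂ) (hf : ∀ y ∈ s, y ≠ z → f y = 0) :
    (s.map f).sum = (s.count z : ℂ) * f z := by
  classical
  induction s using Multiset.induction_on with
  | empty => simp
  | cons y s ih =>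
    rw [Multiset.map_cons, Multiset.sum_cons, ih fun x hx => hf x (Multiset.mem_cons_of_mem hx)]
    by_cases h : y = z
    · rw [h, Multiset.count_cons_self]
      push_cast
      ring
    · rw [hf y (Multiset.mem_cons_self y s) h, Multiset.count_cons_of_ne (Ne.symm h), zero_add]

/-- The multisets are determined by the alternating power sums. -/
theorem mult_unique {D : ℕ} {q : ℝ} (hq : 1 < q) {β β' : ℕ → Multiset ℂ}
    (h : ∀ k, ∀ z ∈ β k, ‖z‖ = q ^ ((k : ℝ) / 2))
    (h' : ∀ k, ∀ z ∈ β' k, ‖z‖ = q ^ ((k : ℝ) / 2))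
    (hs : ∀ e : ℕ, 1 ≤ e →
      ∑ k ∈ Finset.range D, (-1 : ℂ) ^ k * ((β k).map (fun z => z ^ e)).sum =
      ∑ k ∈ Finset.range D, (-1 : ℂ) ^ k * ((β' k).map (fun z => z ^ e)).sum)
    {i : ℕ} (hi : i < D) : β i = β' i := by
  classical
  have hq0 : 0 < q := by linarith
  ext z
  by_cases hz : ‖z‖ = q ^ ((i : ℝ) / 2)
  swap
  · rw [Multiset.count_eq_zero_of_notMem fun hm => hz (h i z hm),
      Multiset.count_eq_zero_of_notMem fun hm => hz (h' i z hm)]
  have hz0 : z ≠ 0 := by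
    intro h0
    rw [h0, norm_zero] at hz
    exact (Real.rpow_pos_of_pos hq0 _).ne hz
  have hinj : ∀ k : ℕ, q ^ ((k : ℝ) / 2) = q ^ ((i : ℝ) / 2) → k = i := by
    intro k hk
    have h1 := (Real.strictMono_rpow_of_base_gt_one hq).injective hk
    have h2 : (k : ℝ) = i := by linarith
    exact_mod_cast h2
  set S : Finset ℂ := (Finset.range D).biUnion fun k => (β k).toFinset ∪ (β' k).toFinset with hS
  set P : Polynomial ℂ := ∏ y ∈ S.erase z, (Polynomial.X - Polynomial.C y) with hP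
  have hPz : P.eval z ≠ 0 := by
    rw [hP, Polynomial.eval_prod, Finset.prod_ne_zero_iff]
    intro y hy
    rw [Polynomial.eval_sub, Polynomial.eval_X, Polynomial.eval_C, sub_ne_zero]
    exact (Finset.ne_of_mem_erase hy).symm
  have hP0 : ∀ y ∈ S, y ≠ z → P.eval y = 0 := by
    intro y hy hyz
    rw [hP, Polynomial.eval_prod]
    refine Finset.prod_eq_zero (Finset.mem_erase.2 ⟨hyz, hy⟩) ?_
    rw [Polynomial.eval_sub, Polynomial.eval_X, Polynomial.eval_C, sub_self]
  have key : ∀ γ : ℕ → Multiset ℂ, (∀ k ∈ Finset.range D, ∀ y ∈ γ k, y ∈ S) →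
      (∀ k, ∀ y ∈ γ k, ‖y‖ = q ^ ((k : ℝ) / 2)) →
      ∑ k ∈ Finset.range D, (-1 : ℂ) ^ k * ((γ k).map (fun y => y * P.eval y)).sum =
        (-1 : ℂ) ^ i * (((γ i).count z : ℂ) * (z * P.eval z)) := by
    intro γ h1 h2
    rw [Finset.sum_eq_single i]
    · rw [sum_ind (γ i) z]
      intro y hy hyz
      rw [hP0 y (h1 i (Finset.mem_range.2 hi) y hy) hyz, mul_zero]
    · intro k hk hki
      rw [sum_ind (γ k) z, Multiset.count_eq_zero_of_notMem, Nat.cast_zero, zero_mul, mul_zero]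
      · intro hm
        exact hki (hinj k (by rw [← h2 k z hm, hz]))
      · intro y hy hyz
        rw [hP0 y (h1 k hk y hy) hyz, mul_zero]
    · intro h3
      exact absurd (Finset.mem_range.2 hi) h3
  have e1 := key β (fun k hk y hy => by
    rw [hS, Finset.mem_biUnion]
    exact ⟨k, hk, Finset.mem_union_left _ (Multiset.mem_toFinset.2 hy)⟩) h
  have e2 := key β' (fun k hk y hy => by
    rw [hS, Finset.mem_biUnion]
    exact ⟨k, hk, Finset.mem_union_right _ (Multiset.mem_toFinset.2 hy)⟩) h'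
  rw [sum_poly hs P, e2] at e1
  have h3 : ((β' i).count z : ℂ) = (β i).count z := by
    have h4 := mul_left_cancel₀ (pow_ne_zero i (by norm_num : (-1 : ℂ) ≠ 0)) e1
    exact mul_right_cancel₀ (mul_ne_zero hz0 hPz) h4
  exact_mod_cast h3.symm

section
variable {F : Type} [Field F] [NumberField F]

theorem one_lt_norm (v : HeightOneSpectrum (𝓞 F)) : (1 : ℝ) < (Ideal.absNorm v.asIdeal : ℝ) := by
  have := two_le_nm v
  have h : (2 : ℕ) ≤ Ideal.absNorm v.asIdeal := this
  exact_mod_cast (by omega : 1 < Ideal.absNorm v.asIdeal)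

/-- there are extensions of the residue field of every degree -/
theorem exists_ext (v : HeightOneSpectrum (𝓞 F)) (e : ℕ) (he : 1 ≤ e) :
    ∃ (κ : Type) (_ : Field κ) (_ : Finite κ) (φ : 𝓞 F →+* κ), RingHom.ker φ = v.asIdeal ∧
      Nat.card κ = Ideal.absNorm v.asIdeal ^ e := by
  have hmax : v.asIdeal.IsMaximal := v.isMaximal
  let _ : Field (𝓞 F ⧸ v.asIdeal) := Ideal.Quotient.field v.asIdeal
  have hfin : Finite (𝓞 F ⧸ v.asIdeal) := by
    have := two_le_nm v
    have h : (2 : ℕ) ≤ Ideal.absNorm v.asIdeal := this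
    rw [Ideal.absNorm_apply, Submodule.cardQuot_apply] at h
    exact Nat.finite_of_card_ne_zero (by omega)
  obtain ⟨p, hp⟩ := CharP.exists (𝓞 F ⧸ v.asIdeal)
  have hpp : Fact p.Prime := ⟨CharP.char_is_prime (𝓞 F ⧸ v.asIdeal) p⟩
  have hne : NeZero e := ⟨by omega⟩
  refine ⟨FiniteField.Extension (𝓞 F ⧸ v.asIdeal) p e, inferInstance, inferInstance,
    (algebraMap _ _).comp (Ideal.Quotient.mk v.asIdeal), ?_, ?_⟩
  · rw [← RingHom.comap_ker, (RingHom.injective_iff_ker_eq_bot _).1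
      (algebraMap (𝓞 F ⧸ v.asIdeal) (FiniteField.Extension (𝓞 F ⧸ v.asIdeal) p e)).injective,
      ← RingHom.ker, Ideal.mk_ker]
  · rw [FiniteField.natCard_extension, Ideal.absNorm_apply, Submodule.cardQuot_apply]


variable (F) in
theorem normSys : NormSys (fun v : HeightOneSpectrum (𝓞 F) => nm v) := by
  refine ⟨two_le_nm, fun r hr => ?_⟩
  have := nm_summable (K := F) (x := -r) (by linarith)
  simpa using this

variable (F) in
theorem EP_one_bdd : ∃ C : ℝ, ∀ᶠ ε : ℝ in 𝓝[>] 0,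
    |EP (fun v : HeightOneSpectrum (𝓞 F) => nm v) ε (fun _ => 1) + Real.log ε| ≤ C := by
  obtain ⟨C, hC⟩ := prime_sum_bdd (K := F)
  refine ⟨C, ?_⟩
  have ht : Tendsto (fun ε : ℝ => 1 + ε) (𝓝[>] 0) (𝓝[>] 1) := by
    rw [tendsto_nhdsWithin_iff]
    constructor
    · have : Tendsto (fun ε : ℝ => 1 + ε) (𝓝 0) (𝓝 (1 + 0)) := tendsto_id.const_add 1
      simpa using this.mono_left nhdsWithin_le_nhds
    · filter_upwards [self_mem_nhdsWithin] with x hx
      have hx' : (0 : ℝ) < x := hx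
      simpa using hx'
  filter_upwards [ht.eventually hC] with ε hε
  have h1 : Lam (1 + ε) = - Real.log ε := by
    unfold Lam
    rw [add_sub_cancel_left, one_div, Real.log_inv]
  rw [h1, sub_neg_eq_add] at hε
  unfold EP
  simp only [one_mul]
  exact hε

end

theorem EP_finsupp {P : Type*} {N : P → ℕ} (hN : NormSys N) (S : Finset P) (r : P → ℝ)
    (hr : ∀ p, p ∉ S → r p = 0)
    (b : ℝ) (hb : ∀ p, |r p| ≤ b) {ε : ℝ} (hε : 0 < ε) : |EP N ε r| ≤ S.card * b := by
  rw [EP, tsum_eq_sum (s := S) fun p hp => by rw [hr p hp, zero_mul]]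
  refine (Finset.abs_sum_le_sum_abs _ _).trans ?_
  rw [← nsmul_eq_mul]
  refine Finset.sum_le_card_nsmul _ _ _ fun p _ => ?_
  have hp1 : (1 : ℝ) ≤ N p := by
    have := hN.two_le p
    exact_mod_cast (by omega : 1 ≤ N p)
  have h1 : (N p : ℝ) ^ (-(1 + ε)) ≤ 1 := Real.rpow_le_one_of_one_le_of_nonpos hp1 (by linarith)
  rw [abs_mul, abs_of_nonneg (wP_nonneg ε p)]
  calc |r p| * (N p : ℝ) ^ (-(1 + ε)) ≤ |r p| * 1 :=
        mul_le_mul_of_nonneg_left h1 (abs_nonneg _)
    _ ≤ b := by rw [mul_one]; exact hb p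

end Pool.Agent.H848.SH
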