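import Mathlib

/-!
# The L-functions of the tensor products of exterior powers of the cohomology: definitions

`X` is a smooth projective variety of dimension `d` over a number field `K`, with Betti numbers `N i`,
`i ≤ 2 d`.  We consider the L-functions of the representations
`Λ^{k_1} H^{i_1}(X) ⊗ ⋯ ⊗ Λ^{k_r} H^{i_r}(X)`.
-/

set_option autoImplicit false

namespace Pool.Agent.H848.SH

open NumberField IsDedekindDomain Filter Topology Polynomial

section
variable {K : Type} [Field K] {n : ℕ}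

/-- The set `X` of homogeneous polynomials over `𝓞_K` in `n` variables gives a projective variety over
`K`.  For a field `κ` with `q` elements and a homomorphism `𝓞_K → κ` this is `(q - 1)` times the number
of the points of `X` with coordinates in `κ`: the number of the nonzero solutions of the equations. -/
noncomputable def cone (X : Set (MvPolynomial (Fin n) (𝓞 K))) {κ : Type} [Field κ]
    (φ : 𝓞 K →+* κ) : ℕ :=
  Nat.card {u : Fin n → κ // u ≠ 0 ∧ ∀ f ∈ X, MvPolynomial.eval₂ φ u f = 0}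

/-- `α i a`, `a = 1, …, N i`, are the eigenvalues of the geometric Frobenius at the prime `v` of `K` on
`H^i(X)`, `i = 0, …, 2d`, for a variety `X` of dimension `d`: they have the absolute value `q_v^{i/2}`,
and for every finite extension `κ` of the residue field of `v`, of degree `e`, the number of the points
of `X` with coordinates in `κ` is `∑ (-1)^i ∑_a (α i a)^e`.  By the theorem of Deligne such numbers
exist at almost all primes if `X` is smooth and `N i` are the Betti numbers of `X`; they are unique up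
to the order. -/
def IsFrobenius [NumberField K] (X : Set (MvPolynomial (Fin n) (𝓞 K))) (d : ℕ) (N : ℕ → ℕ)
    (v : HeightOneSpectrum (𝓞 K)) (α : ∀ i : Fin (2 * d + 1), Fin (N i) → ℂ) : Prop :=
  (∀ i a, ‖α i a‖ = (Ideal.absNorm v.asIdeal : ℝ) ^ (((i : ℕ) : ℝ) / 2)) ∧
    ∀ (κ : Type) [Field κ] [Finite κ] (φ : 𝓞 K →+* κ) (e : ℕ), RingHom.ker φ = v.asIdeal →
      Nat.card κ = Ideal.absNorm v.asIdeal ^ e →
      (cone X φ : ℂ) = ((Ideal.absNorm v.asIdeal : ℂ) ^ e - 1) *
        ∑ i : Fin (2 * d + 1), (-1 : ℂ) ^ (i : ℕ) * ∑ a, α i a ^ e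

/-- A sequence `w` of pairs `(i_j, k_j)` stands for the representation
`Λ^{k_1} H^{i_1}(X) ⊗ ⋯ ⊗ Λ^{k_r} H^{i_r}(X)`.  Its weight is `∑ i_j k_j`. -/
def weight {d r : ℕ} (w : Fin r → Fin (2 * d + 1) × ℕ) : ℕ := ∑ j, ((w j).1 : ℕ) * (w j).2

/-- The basis of the representation: the families `(S_j)` of sets `S_j` of `k_j` basis vectors of
`H^{i_j}(X)`. -/
def basis {d : ℕ} (N : ℕ → ℕ) {r : ℕ} (w : Fin r → Fin (2 * d + 1) × ℕ) :
    Finset (∀ j, Finset (Fin (N (w j).1))) :=
  Fintype.piFinset fun j => Finset.univ.powersetCard (w j).2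

/-- The polynomials `B v` are the Euler factors of `L(w, s)`, the L-function of the representation
`Λ^{k_1} H^{i_1}(X) ⊗ ⋯ ⊗ Λ^{k_r} H^{i_r}(X)`: at almost all primes `v` the Euler factor is the product
of the `1 - α_S z` over the eigenvalues `α_S = ∏_j ∏_{a ∈ S_j} α_{i_j, a}`; at the other primes `B v` is
an arbitrary polynomial, and no factor `1 / B_v(q_v^{-s})` has a pole at `s = weight / 2 + 1`. -/
def IsEulerSystem [NumberField K] (X : Set (MvPolynomial (Fin n) (𝓞 K))) (d : ℕ) (N : ℕ → ℕ) {r : ℕ}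
    (w : Fin r → Fin (2 * d + 1) × ℕ) (B : HeightOneSpectrum (𝓞 K) → ℂ[X]) : Prop :=
  (∀ᶠ v in cofinite, ∃ α : ∀ i : Fin (2 * d + 1), Fin (N i) → ℂ, IsFrobenius X d N v α ∧
    ∀ z : ℂ, (B v).eval z = ∏ S ∈ basis N w, (1 - (∏ j, ∏ a ∈ S j, α (w j).1 a) * z)) ∧
  ∀ v, (B v).eval ((Ideal.absNorm v.asIdeal : ℂ) ^ (-((weight w : ℂ) / 2 + 1))) ≠ 0

/-- The Euler product `∏_v B_v(q_v^{-s})⁻¹`. -/
noncomputable def LFun [NumberField K] (B : HeightOneSpectrum (𝓞 K) → ℂ[X]) (s : ℂ) : ℂ :=
  ∏' v : HeightOneSpectrum (𝓞 K), ((B v).eval ((Ideal.absNorm v.asIdeal : ℂ) ^ (-s)))⁻¹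

/-- `L(w, s)` has a pole of order `ρ` at `s = m + 1`, `2 m` the weight, in the sense that
`log |L(m + 1 + ε)| / log(1/ε)` tends to `ρ` as `ε → 0+`.  This is the case if `(s - m - 1)^ρ L(w, s)`
has a finite nonzero limit as real `s → (m + 1)⁺`. -/
def HasPole [NumberField K] (X : Set (MvPolynomial (Fin n) (𝓞 K))) (d : ℕ) (N : ℕ → ℕ) {r : ℕ}
    (w : Fin r → Fin (2 * d + 1) × ℕ) (ρ : ℤ) : Prop :=
  ∃ B : HeightOneSpectrum (𝓞 K) → ℂ[X], IsEulerSystem X d N w B ∧
    Tendsto (fun ε : ℝ => Real.log ‖LFun B ((weight w : ℂ) / 2 + 1 + ε)‖ / Real.log (1 / ε))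
      (𝓝[>] 0) (𝓝 (ρ : ℝ))

end

/-- The group of the characters of the torus of all families of eigenvalues: for a family of complex
numbers `x_{i,a}` of absolute value one and a character `l`, `x^l = ∏ x_{i,a}^{l_{i,a}}`. -/
abbrev Char (d : ℕ) (N : ℕ → ℕ) : Type := ((i : Fin (2 * d + 1)) × Fin (N i)) → ℤ

/-- The character by which the torus acts on the basis vector `S`. -/
def char {d : ℕ} {N : ℕ → ℕ} {r : ℕ} (w : Fin r → Fin (2 * d + 1) × ℕ)
    (S : ∀ j, Finset (Fin (N (w j).1))) : Char d N :=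
  ∑ j, ∑ a ∈ S j, Pi.single ⟨(w j).1, a⟩ 1

/-- The real part of the value of the symmetrised character `l` at the normalised eigenvalues:
`Re ∑_σ ∏ x_{i,σ(a)}^{l_{i,a}}`, `x_{i,a} = α_{i,a} / |α_{i,a}|`, where `σ` runs through all families of
permutations of the eigenvalues on the `H^i(X)`. -/
noncomputable def symTrace {d : ℕ} {N : ℕ → ℕ} (l : Char d N)
    (α : ∀ i : Fin (2 * d + 1), Fin (N i) → ℂ) : ℝ :=
  (∑ σ : (∀ i : Fin (2 * d + 1), Equiv.Perm (Fin (N i))),
    ∏ y : (i : Fin (2 * d + 1)) × Fin (N i),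
      (α y.1 (σ y.1 y.2) / (‖α y.1 (σ y.1 y.2)‖ : ℂ)) ^ l y).re

/-- The function `p` on the characters is elementary: it is integer valued and positive definite, not
zero, `p(l + h) = p(l)` for the `h` in the subgroup `H` of the characters with `p(h) = p(0)`, and `p`
is zero outside of finitely many cosets of `H`.  So `p(l)` is the coefficient of `x^{-l}` in a trigonometric
polynomial with integer coefficients and nonnegative values on the closed subgroup of the torus
defined by `x^h = 1` for `h ∈ H`. -/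
structure IsElementary {d : ℕ} {N : ℕ → ℕ} (p : Char d N → ℤ) : Prop where
  symm : ∀ l, p (-l) = p l
  nonneg : ∀ c : Char d N →₀ ℝ, 0 ≤ c.sum fun l x => c.sum fun l' y => x * y * (p (l - l') : ℝ)
  pos : 0 < p 0
  period : ∀ h, p h = p 0 → ∀ l, p (l + h) = p l
  support : ∃ s : Finset (Char d N), ∀ l, p l ≠ 0 → ∃ a ∈ s, p (l - a) = p 0

end Pool.Agent.H848.SH
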