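import Pool.Agent.H848.SH.Main

/-!
# The shape of the orders: end of the proof
-/

set_option autoImplicit false

namespace Pool.Agent.H848.SH

open NumberField IsDedekindDomain Filter Topology Polynomial ComplexConjugate
open Pool.Agent.W540.BE (EP)
open Pool.Agent.H921R2.TatePole (nm two_le_nm)
open Pool.Agent.H848.PD (IsPD)

section
variable {d : ℕ} {N : ℕ → ℕ}

theorem elementary_of {p : Char d N → ℤ} (h : Pool.Agent.H848.PD.IsElementary p) :
    IsElementary p :=
  ⟨h.pd.symm, h.pd.nonneg, h.pos, fun _ hh l => h.pd.period hh l, h.fin⟩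

theorem IsElementary.sub_mem {p : Char d N → ℤ} (hp : IsElementary p) {h h' : Char d N}
    (h1 : p h = p 0) (h2 : p h' = p 0) : p (h - h') = p 0 := by
  have h3 : p (-h') = p 0 := by rw [hp.symm, h2]
  rw [sub_eq_add_neg, hp.period _ h3, h1]

/-- eventual periodicity along the multiples of a character -/
theorem IsElementary.periodic {p : Char d N → ℤ} (hp : IsElementary p) (l : Char d N) :
    ∃ T : ℕ, 1 ≤ T ∧ ∃ k₀ : ℕ, ∀ k ≥ k₀, p ((k + T) • l) = p (k • l) := by
  classical
  by_cases hcase : ∃ T : ℕ, 1 ≤ T ∧ p (T • l) = p 0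
  · obtain ⟨T, hT, h⟩ := hcase
    refine ⟨T, hT, 0, fun k _ => ?_⟩
    rw [add_nsmul, hp.period _ h]
  · push Not at hcase
    obtain ⟨s, hs⟩ := hp.support
    have h1 : {k : ℕ | p (k • l) ≠ 0}.Finite := by
      have h2 : ∀ k : ℕ, ∃ a : Char d N, p (k • l) ≠ 0 → a ∈ s ∧ p (k • l - a) = p 0 := by
        intro k
        by_cases hk : p (k • l) ≠ 0
        · obtain ⟨a, ha, ha'⟩ := hs _ hk
          exact ⟨a, fun _ => ⟨ha, ha'⟩⟩
        · exact ⟨0, fun h => absurd h hk⟩
      choose f hf using h2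
      refine Set.Finite.of_finite_image (f := f) ?_ ?_
      · refine (s.finite_toSet).subset ?_
        rintro _ ⟨k, hk, rfl⟩
        exact (hf k hk).1
      · intro k hk k' hk' hkk
        have h3 := (hf k hk).2
        have h4 := (hf k' hk').2
        rw [← hkk] at h4
        by_contra hne
        rcases Nat.lt_or_gt_of_ne hne with hlt | hlt
        · have h5 := hp.sub_mem h4 h3
          have h6 : k' • l - f k - (k • l - f k) = (k' - k) • l := by
            rw [sub_nsmul _ hlt.le]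
            abel
          rw [h6] at h5
          exact hcase (k' - k) (by omega) h5
        · have h5 := hp.sub_mem h3 h4
          have h6 : k • l - f k - (k' • l - f k) = (k - k') • l := by
            rw [sub_nsmul _ hlt.le]
            abel
          rw [h6] at h5
          exact hcase (k - k') (by omega) h5
    obtain ⟨k₀, hk₀⟩ := h1.bddAbove
    refine ⟨1, le_rfl, k₀ + 1, fun k hk => ?_⟩
    have h7 : ∀ k, k₀ + 1 ≤ k → p (k • l) = 0 := by
      intro k hk
      by_contra h8
      have := hk₀ (a := k) h8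
      omega
    rw [h7 k hk, h7 (k + 1) (by omega)]

theorem sum_periodic {ι : Type} (s : Finset ι) (p : ι → Char d N → ℤ)
    (hp : ∀ j ∈ s, IsElementary (p j)) (l : Char d N) :
    ∃ T : ℕ, 1 ≤ T ∧ ∃ k₀ : ℕ, ∀ k ≥ k₀, ∑ j ∈ s, p j ((k + T) • l) = ∑ j ∈ s, p j (k • l) := by
  classical
  have h1 : ∀ j, ∃ T k₀ : ℕ, j ∈ s → 1 ≤ T ∧ ∀ k ≥ k₀, p j ((k + T) • l) = p j (k • l) := by
    intro j
    by_cases hj : j ∈ s
    · obtain ⟨T, hT, k₀, hk₀⟩ := (hp j hj).periodic l
      exact ⟨T, k₀, fun _ => ⟨hT, hk₀⟩⟩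
    · exact ⟨0, 0, fun h => absurd h hj⟩
  choose T k₀ hT using h1
  refine ⟨∏ j ∈ s, T j, ?_, ∑ j ∈ s, k₀ j, fun k hk => ?_⟩
  · exact Nat.succ_le_of_lt (Finset.prod_pos fun j hj => (hT j hj).1)
  · refine Finset.sum_congr rfl fun j hj => ?_
    obtain ⟨c, hc⟩ := Finset.dvd_prod_of_mem T hj
    have hk' : k₀ j ≤ k := (Finset.single_le_sum (f := k₀) (fun _ _ => Nat.zero_le _) hj).trans hk
    have h2 : ∀ c : ℕ, p j ((k + T j * c) • l) = p j (k • l) := by
      intro c
      induction c with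
      | zero => rfl
      | succ c ih =>
        have h3 : k + T j * (c + 1) = (k + T j * c) + T j := by ring
        rw [h3, (hT j hj).2 (k + T j * c) (by omega), ih]
    have h4 : k + ∏ j ∈ s, T j = k + T j * c := congrArg (k + ·) hc
    rw [h4]
    exact h2 c

end

section
variable {K : Type} [Field K] [NumberField K] {n : ℕ} {X : Set (MvPolynomial (Fin n) (𝓞 K))}
  {d : ℕ} {N : ℕ → ℕ}

theorem symTrace_bound (l : Char d N) (α : ∀ i : Fin (2 * d + 1), Fin (N i) → ℂ) :
    |symTrace l α| ≤ ∏ i : Fin (2 * d + 1), ((N i).factorial : ℝ) := by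
  unfold symTrace
  refine (Complex.abs_re_le_norm _).trans ((norm_sum_le _ _).trans ?_)
  have h1 : ∀ z : ℂ, ∀ m : ℤ, ‖(z / (‖z‖ : ℂ)) ^ m‖ ≤ 1 := by
    intro z m
    by_cases hz : z = 0
    · subst hz
      rw [norm_zero, Complex.ofReal_zero, div_zero, norm_zpow, norm_zero]
      by_cases hm : m = 0
      · rw [hm, zpow_zero]
      · rw [zero_zpow m hm]
        exact zero_le_one
    · rw [norm_zpow, norm_div, Complex.norm_real, norm_norm, div_self (norm_ne_zero_iff.2 hz),
        one_zpow]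
  calc ∑ σ : (∀ i : Fin (2 * d + 1), Equiv.Perm (Fin (N i))),
      ‖∏ y : (i : Fin (2 * d + 1)) × Fin (N i),
        (α y.1 (σ y.1 y.2) / (‖α y.1 (σ y.1 y.2)‖ : ℂ)) ^ l y‖
      ≤ ∑ _σ : (∀ i : Fin (2 * d + 1), Equiv.Perm (Fin (N i))), (1 : ℝ) := by
        refine Finset.sum_le_sum fun σ _ => ?_
        rw [norm_prod]
        exact Finset.prod_le_one (fun _ _ => norm_nonneg _) fun y _ => h1 _ _
    _ = _ := by
        rw [Finset.sum_const, nsmul_eq_mul, mul_one, Finset.card_univ, Fintype.card_pi]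
        simp [Fintype.card_perm]

theorem FF_perm (l : Char d N) {x x' : XS d N}
    (τ : ∀ i : Fin (2 * d + 1), Equiv.Perm (Fin (N i)))
    (h : ∀ y : (i : Fin (2 * d + 1)) × Fin (N i), x'.1 y = x.1 ⟨y.1, τ y.1 y.2⟩) :
    FF l x' = FF l x := by
  unfold FF
  refine Fintype.sum_equiv (Equiv.mulLeft τ) _ _ fun σ => ?_
  refine Finset.prod_congr rfl fun y _ => ?_
  rw [h]
  rfl

theorem exists_perm {m : ℕ} {f g : Fin m → ℂ}
    (h : Finset.univ.val.map f = Finset.univ.val.map g) :
    ∃ τ : Equiv.Perm (Fin m), ∀ a, f a = g (τ a) := by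
  classical
  have hcard : ∀ z : ℂ, Fintype.card {a // f a = z} = Fintype.card {a // g a = z} := by
    intro z
    rw [Fintype.card_subtype, Fintype.card_subtype]
    have h1 := congrArg (Multiset.count z) h
    rw [Multiset.count_map, Multiset.count_map] at h1
    have h2 : ∀ f : Fin m → ℂ, (Finset.univ.filter fun a => f a = z).card =
        (Multiset.filter (fun a => z = f a) Finset.univ.val).card := by
      intro f
      rw [Finset.card_def, Finset.filter_val]
      congr 1
      exact Multiset.filter_congr fun a _ => eq_comm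
    rw [h2, h2, h1]
  have e : ∀ z : ℂ, Nonempty ({a // f a = z} ≃ {a // g a = z}) := fun z =>
    ⟨Fintype.equivOfCardEq (hcard z)⟩
  refine ⟨(Equiv.sigmaFiberEquiv f).symm.trans ((Equiv.sigmaCongrRight fun z => (e z).some).trans
    (Equiv.sigmaFiberEquiv g)), fun a => ?_⟩
  have := ((e (f a)).some ⟨a, rfl⟩).2
  exact this.symm

/-- the symmetrised characters do not depend on the choice of the eigenvalues -/
theorem symTrace_eq (l : Char d N) {v : HeightOneSpectrum (𝓞 K)}
    {α : ∀ i : Fin (2 * d + 1), Fin (N i) → ℂ} (h : IsFrobenius X d N v α) :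
    symTrace l α = (FF l (xv X d N v)).re := by
  have h1 : ∀ i : Fin (2 * d + 1), ∃ τ : Equiv.Perm (Fin (N i)),
      ∀ a, nrmz v α ⟨i, a⟩ = (xv X d N v).1 ⟨i, τ a⟩ := fun i =>
    exists_perm (xv_map h i).symm
  choose τ hτ using h1
  rw [← FF_perm l (x := xv X d N v) (x' := ⟨nrmz v α, adm_nrmz h⟩) τ fun y => hτ y.1 y.2]
  unfold symTrace FF
  congr 1
  refine Finset.sum_congr rfl fun σ _ => Finset.prod_congr rfl fun y _ => ?_
  congr 1
  unfold nrmz
  simp only
  rw [h.1, Real.rpow_neg (nm_pos v).le, div_eq_mul_inv, Complex.ofReal_inv]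
  rfl

/-- the coefficient at zero -/
theorem bb_zero (H : AllOrders X d N) :
    bb H 0 = ∏ i : Fin (2 * d + 1), ((N i).factorial : ℤ) := by
  have h0 : parity (0 : Char d N) = 0 := by simp [parity]
  have h1 := bb_mean H h0
  have h2 : (fun v => (FF (0 : Char d N) (xv X d N v)).re) =
      fun _ => (∏ i : Fin (2 * d + 1), ((N i).factorial : ℝ)) * 1 := by
    funext v
    rw [FF_mo]
    simp only [mo_zero]
    rw [Finset.sum_const, nsmul_eq_mul, mul_one, Finset.card_univ, Fintype.card_pi]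
    simp only [Fintype.card_perm, Fintype.card_fin]
    rw [Complex.natCast_re]
    push_cast
    ring
  rw [h2] at h1
  have h3 := h1.unique (HasMean.one.const_mul _)
  rw [mul_one] at h3
  exact_mod_cast h3

theorem parity_of_even {l : Char d N}
    (h : Even (∑ y : (i : Fin (2 * d + 1)) × Fin (N i), ((y.1 : ℕ) : ℤ) * l y)) :
    parity l = 0 := by
  have h1 := (ZMod.intCast_zmod_eq_zero_iff_dvd _ 2).2 (even_iff_two_dvd.1 h)
  push_cast at h1
  unfold parity
  rw [← h1]
  refine Finset.sum_congr rfl fun y _ => ?_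
  ring

/-- **The shape of the orders.** -/
theorem shape (H : AllOrders X d N) : ∃ (t : ℕ) (p : Fin t → Char d N → ℤ),
    (∀ j, IsElementary (p j)) ∧
    ∑ j, p j 0 = ∏ i : Fin (2 * d + 1), ((N i).factorial : ℤ) ∧
    (∀ (r : ℕ) (w : Fin r → Fin (2 * d + 1) × ℕ) (ρ : ℤ), Even (weight w) → HasPole X d N w ρ →
      (∏ i : Fin (2 * d + 1), ((N i).factorial : ℤ)) * ρ =
        ∑ S ∈ basis N w, ∑ j, p j (char w S)) ∧
    (∀ l : Char d N, Even (∑ y : (i : Fin (2 * d + 1)) × Fin (N i), ((y.1 : ℕ) : ℤ) * l y) →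
      ∀ α : HeightOneSpectrum (𝓞 K) → ∀ i : Fin (2 * d + 1), Fin (N i) → ℂ,
        (∀ᶠ v in cofinite, IsFrobenius X d N v (α v)) →
        Tendsto (fun ε : ℝ => (∑' v : HeightOneSpectrum (𝓞 K), symTrace l (α v) *
          (Ideal.absNorm v.asIdeal : ℝ) ^ (-(1 + ε))) / Real.log (1 / ε)) (𝓝[>] 0)
          (𝓝 ((∑ j, p j l : ℤ) : ℝ))) ∧
    ∀ l : Char d N, ∃ T : ℕ, 1 ≤ T ∧ ∃ k₀ : ℕ, ∀ k ≥ k₀,
      ∑ j, p j ((k + T) • l) = ∑ j, p j (k • l) := by
  obtain ⟨L, hL1, hL2⟩ := Pool.Agent.H848.PD.exists_elementary (bb_pd H)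
  have hsum : ∀ g, ∑ j : Fin L.length, L.get j g = bb H g := by
    intro g
    rw [hL2, ← List.sum_ofFn]
    congr 1
    refine List.ext_get (by simp) fun i h1 h2 => by simp
  have hel : ∀ j : Fin L.length, IsElementary (L.get j) := fun j =>
    elementary_of (hL1 _ (L.get_mem j))
  refine ⟨L.length, fun j => L.get j, hel, ?_, fun r w ρ hw hρ => ?_, fun l hl α hα => ?_,
    fun l => sum_periodic _ _ (fun j _ => hel j) l⟩
  · rw [hsum, bb_zero]
  · rw [order_eq H w hw hρ]
    exact Finset.sum_congr rfl fun S _ => (hsum _).symm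
  · simp only [hsum]
    have h1 := bb_mean H (parity_of_even hl)
    have h2 : HasMean (fun v => symTrace l (α v)) (bb H l) := by
      refine h1.congr (fun v => (Complex.abs_re_le_norm _).trans (FF_bound _ _))
        (fun v => symTrace_bound l (α v)) ?_
      filter_upwards [hα] with v hv
      exact (symTrace_eq l hv).symm
    exact h2

end

end Pool.Agent.H848.SH
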