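import Pool.Agent.H848.SH.Defs

/-!
# Symmetric functions of the eigenvalues
-/

set_option autoImplicit false

namespace Pool.Agent.H848.SH

open MvPolynomial

section

variable {d : ℕ} {N : ℕ → ℕ}

/-- admissible families -/
structure Adm (x : ((i : Fin (2 * d + 1)) × Fin (N i)) → ℂ) : Prop where
  norm : ∀ y, ‖x y‖ = 1
  sq : ∀ i : Fin (2 * d + 1), (∏ a : Fin (N i), x ⟨i, a⟩) ^ 2 = 1

/-- the space of the admissible families -/
abbrev XS (d : ℕ) (N : ℕ → ℕ) : Type :=
  {x : ((i : Fin (2 * d + 1)) × Fin (N i)) → ℂ // Adm x}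

/-- elementary symmetric functions -/
noncomputable def esy (i : Fin (2 * d + 1)) (k : ℕ) (x : XS d N) : ℂ :=
  ∑ S ∈ (Finset.univ : Finset (Fin (N i))).powersetCard k, ∏ a ∈ S, x.1 ⟨i, a⟩

/-- the trace -/
noncomputable def ew {r : ℕ} (w : Fin r → Fin (2 * d + 1) × ℕ) (x : XS d N) : ℂ :=
  ∏ j, esy (w j).1 (w j).2 x

theorem ew_eq {r : ℕ} (w : Fin r → Fin (2 * d + 1) × ℕ) (x : XS d N) :
    ew w x = ∑ S ∈ basis N w, ∏ j, ∏ a ∈ S j, x.1 ⟨(w j).1, a⟩ := by
  unfold ew esy basis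
  rw [Finset.prod_univ_sum]

/-- the functions of the given parity -/
noncomputable def A (d : ℕ) (N : ℕ → ℕ) (p : ZMod 2) : AddSubgroup (XS d N → ℂ) :=
  AddSubgroup.closure {φ | ∃ (r : ℕ) (w : Fin r → Fin (2 * d + 1) × ℕ),
    (weight w : ZMod 2) = p ∧ φ = ew w}

theorem ew_mem {r : ℕ} (w : Fin r → Fin (2 * d + 1) × ℕ) :
    (ew w : XS d N → ℂ) ∈ A d N (weight w : ZMod 2) :=
  AddSubgroup.subset_closure ⟨r, w, rfl, rfl⟩

theorem one_mem : (1 : XS d N → ℂ) ∈ A d N 0 := by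
  have h : (ew (fun j : Fin 0 => j.elim0) : XS d N → ℂ) = 1 := by
    funext x
    simp [ew]
  rw [← h]
  refine AddSubgroup.subset_closure ⟨0, _, ?_, rfl⟩
  simp [weight]

theorem esy_mem (i : Fin (2 * d + 1)) (k : ℕ) :
    (esy i k : XS d N → ℂ) ∈ A d N ((((i : ℕ) * k : ℕ)) : ZMod 2) := by
  have h : (ew (fun _ : Fin 1 => (i, k)) : XS d N → ℂ) = esy i k := by
    funext x
    simp [ew]
  rw [← h]
  refine AddSubgroup.subset_closure ⟨1, _, ?_, rfl⟩
  simp [weight]

theorem ew_append {r s : ℕ} (w : Fin r → Fin (2 * d + 1) × ℕ) (w' : Fin s → Fin (2 * d + 1) × ℕ) :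
    (ew (Fin.append w w') : XS d N → ℂ) = ew w * ew w' := by
  funext x
  simp [ew, Fin.prod_univ_add]

theorem weight_append {r s : ℕ} (w : Fin r → Fin (2 * d + 1) × ℕ)
    (w' : Fin s → Fin (2 * d + 1) × ℕ) : weight (Fin.append w w') = weight w + weight w' := by
  simp [weight, Fin.sum_univ_add]

theorem mul_mem {p q : ZMod 2} {φ ψ : XS d N → ℂ} (hφ : φ ∈ A d N p) (hψ : ψ ∈ A d N q) :
    φ * ψ ∈ A d N (p + q) := by
  unfold A at hφ hψ
  induction hφ using AddSubgroup.closure_induction with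
  | mem φ h =>
    obtain ⟨r, w, hw, rfl⟩ := h
    induction hψ using AddSubgroup.closure_induction with
    | mem ψ h =>
      obtain ⟨s, w', hw', rfl⟩ := h
      rw [← ew_append]
      refine AddSubgroup.subset_closure ⟨_, _, ?_, rfl⟩
      rw [weight_append, Nat.cast_add, hw, hw']
    | zero =>
      rw [mul_zero]
      exact AddSubgroup.zero_mem _
    | add ψ ψ' _ _ h h' =>
      rw [mul_add]
      exact AddSubgroup.add_mem _ h h'
    | neg ψ _ h =>
      rw [mul_neg]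
      exact AddSubgroup.neg_mem _ h
  | zero =>
    rw [zero_mul]
    exact AddSubgroup.zero_mem _
  | add φ φ' _ _ h h' =>
    rw [add_mul]
    exact AddSubgroup.add_mem _ h h'
  | neg φ _ h =>
    rw [neg_mul]
    exact AddSubgroup.neg_mem _ h

theorem pow_mem {p : ZMod 2} {φ : XS d N → ℂ} (hφ : φ ∈ A d N p) (m : ℕ) :
    φ ^ m ∈ A d N (m • p) := by
  induction m with
  | zero =>
    rw [pow_zero, zero_smul]
    exact one_mem
  | succ m ih =>
    rw [pow_succ, succ_nsmul]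
    exact mul_mem ih hφ

theorem prod_mem {ι : Type*} (s : Finset ι) {p : ι → ZMod 2} {φ : ι → XS d N → ℂ}
    (h : ∀ j ∈ s, φ j ∈ A d N (p j)) : ∏ j ∈ s, φ j ∈ A d N (∑ j ∈ s, p j) := by
  classical
  induction s using Finset.induction_on with
  | empty =>
    rw [Finset.prod_empty, Finset.sum_empty]
    exact one_mem
  | insert j s hj ih =>
    rw [Finset.prod_insert hj, Finset.sum_insert hj]
    exact mul_mem (h j (Finset.mem_insert_self _ _)) (ih fun k hk =>
      h k (Finset.mem_insert_of_mem hk))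

/-- polynomials in the elementary symmetric functions -/
theorem aeval_mem (i : Fin (2 * d + 1)) {m : ℕ} (P : MvPolynomial (Fin m) ℤ) (D : ZMod 2)
    (hP : IsWeightedHomogeneous (fun j : Fin m => ((((i : ℕ) * ((j : ℕ) + 1) : ℕ)) : ZMod 2)) P D) :
    (aeval (fun j : Fin m => (esy i ((j : ℕ) + 1) : XS d N → ℂ)) P) ∈ A d N D := by
  rw [MvPolynomial.aeval_def, MvPolynomial.eval₂_eq]
  refine AddSubgroup.sum_mem _ fun t ht => ?_
  have h1 := hP (MvPolynomial.mem_support_iff.1 ht)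
  have h2 : (∏ j ∈ t.support, (esy i ((j : ℕ) + 1) : XS d N → ℂ) ^ t j) ∈ A d N D := by
    have h3 := prod_mem t.support (fun j _ => pow_mem (esy_mem (N := N) i ((j : ℕ) + 1)) (t j))
    rwa [← h1, Finsupp.weight_apply]
  rw [eq_intCast (algebraMap ℤ (XS d N → ℂ)), ← zsmul_eq_mul]
  exact AddSubgroup.zsmul_mem _ h2 _

/-- the symmetrised monomial -/
noncomputable def symm {m : ℕ} (μ : Fin m → ℕ) : MvPolynomial (Fin m) ℤ :=
  ∑ σ : Equiv.Perm (Fin m), ∏ a, X (σ a) ^ μ a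

theorem symm_isSymmetric {m : ℕ} (μ : Fin m → ℕ) : (symm μ).IsSymmetric := by
  intro τ
  unfold symm
  simp only [map_sum, map_prod, map_pow, rename_X]
  exact Fintype.sum_equiv (Equiv.mulLeft τ) _ _ fun σ => rfl

theorem symm_homogeneous {m : ℕ} (μ : Fin m → ℕ) (c : ZMod 2) :
    IsWeightedHomogeneous (fun _ : Fin m => c) (symm μ) (∑ a, μ a • c) := by
  unfold symm
  refine IsWeightedHomogeneous.sum _ _ _ fun σ _ => ?_
  refine IsWeightedHomogeneous.prod _ _ _ fun a _ => ?_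
  exact (isWeightedHomogeneous_X ℤ (fun _ : Fin m => c) (σ a)).pow (μ a)

theorem esymm_homogeneous {m : ℕ} (k : ℕ) (c : ZMod 2) :
    IsWeightedHomogeneous (fun _ : Fin m => c) (esymm (Fin m) ℤ k) (k • c) := by
  unfold esymm
  refine IsWeightedHomogeneous.sum _ _ _ fun S hS => ?_
  have h1 : IsWeightedHomogeneous (fun _ : Fin m => c) (∏ a ∈ S, (X a : MvPolynomial (Fin m) ℤ))
      (∑ a ∈ S, c) :=
    IsWeightedHomogeneous.prod _ _ _ fun a _ => isWeightedHomogeneous_X ℤ (fun _ : Fin m => c) a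
  rw [Finset.sum_const, (Finset.mem_powersetCard.1 hS).2] at h1
  exact h1

/-- substitution of homogeneous polynomials -/
theorem aeval_homogeneous {m : ℕ} (c : ZMod 2) (P : MvPolynomial (Fin m) ℤ) (D : ZMod 2)
    (hP : IsWeightedHomogeneous (fun j : Fin m => ((j : ℕ) + 1) • c) P D) :
    IsWeightedHomogeneous (fun _ : Fin m => c)
      (aeval (fun j : Fin m => esymm (Fin m) ℤ ((j : ℕ) + 1)) P) D := by
  rw [MvPolynomial.aeval_def, MvPolynomial.eval₂_eq]
  refine IsWeightedHomogeneous.sum _ _ _ fun t ht => ?_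
  have h1 := hP (MvPolynomial.mem_support_iff.1 ht)
  rw [algebraMap_eq]
  refine IsWeightedHomogeneous.C_mul ?_ _
  rw [← h1, Finsupp.weight_apply]
  exact IsWeightedHomogeneous.prod _ _ _ fun j _ => (esymm_homogeneous _ c).pow (t j)

/-- The fundamental theorem on symmetric polynomials, with parities. -/
theorem exists_poly {m : ℕ} (μ : Fin m → ℕ) (c : ZMod 2) : ∃ P : MvPolynomial (Fin m) ℤ,
    IsWeightedHomogeneous (fun j : Fin m => ((j : ℕ) + 1) • c) P (∑ a, μ a • c) ∧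
    aeval (fun j : Fin m => esymm (Fin m) ℤ ((j : ℕ) + 1)) P = symm μ := by
  classical
  obtain ⟨Q, hQ⟩ := esymmAlgHom_fin_surjective ℤ (le_refl m)
    ⟨symm μ, (mem_symmetricSubalgebra _).2 (symm_isSymmetric μ)⟩
  have hQ' : aeval (fun j : Fin m => esymm (Fin m) ℤ ((j : ℕ) + 1)) Q = symm μ := by
    have := congrArg Subtype.val hQ
    rwa [esymmAlgHom_apply] at this
  set ω : Fin m → ZMod 2 := fun j => ((j : ℕ) + 1) • c with hω
  set D : ZMod 2 := ∑ a, μ a • c with hD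
  refine ⟨weightedHomogeneousComponent ω D Q,
    weightedHomogeneousComponent_isWeightedHomogeneous .., ?_⟩
  have h1 : Q = ∑ e : ZMod 2, weightedHomogeneousComponent ω e Q := by
    rw [← finsum_eq_sum_of_fintype]
    exact (finsum_weightedHomogeneousComponent ω Q).symm
  have h2 : weightedHomogeneousComponent (fun _ : Fin m => c) D (symm μ) = symm μ :=
    (symm_homogeneous μ c).weightedHomogeneousComponent_same
  rw [← h2, ← hQ']
  conv_rhs => rw [h1]
  rw [map_sum, map_sum, Finset.sum_eq_single D]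
  · exact ((aeval_homogeneous c _ D
      (weightedHomogeneousComponent_isWeightedHomogeneous ..)).weightedHomogeneousComponent_same).symm
  · intro e _ he
    exact (aeval_homogeneous c _ e
      (weightedHomogeneousComponent_isWeightedHomogeneous ..)).weightedHomogeneousComponent_ne _ he.symm
  · intro h
    exact absurd (Finset.mem_univ _) h

/-- the symmetrised monomial of one block -/
noncomputable def block (i : Fin (2 * d + 1)) (μ : Fin (N i) → ℤ) (x : XS d N) : ℂ :=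
  ∑ σ : Equiv.Perm (Fin (N i)), ∏ a, x.1 ⟨i, σ a⟩ ^ μ a

theorem block_nat_mem (i : Fin (2 * d + 1)) (μ : Fin (N i) → ℕ) :
    (block i (fun a => (μ a : ℤ)) : XS d N → ℂ) ∈ A d N (∑ a, μ a • ((i : ℕ) : ZMod 2)) := by
  obtain ⟨P, h1, h2⟩ := exists_poly μ ((i : ℕ) : ZMod 2)
  have h3 : (fun j : Fin (N i) => ((j : ℕ) + 1) • ((i : ℕ) : ZMod 2)) =
      fun j : Fin (N i) => ((((i : ℕ) * ((j : ℕ) + 1) : ℕ)) : ZMod 2) := by
    funext j
    push_cast
    rw [nsmul_eq_mul]
    push_cast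
    ring
  rw [h3] at h1
  have h4 := aeval_mem (N := N) i P _ h1
  convert h4 using 1
  funext x
  -- evaluate at the point `x`
  set y : Fin (N i) → ℂ := fun a => x.1 ⟨i, a⟩ with hy
  have h5 : block i (fun a => (μ a : ℤ)) x = aeval y (symm μ) := by
    unfold block symm
    simp only [map_sum, map_prod, map_pow, aeval_X, zpow_natCast, hy]
  have h6 : ∀ k, aeval y (esymm (Fin (N i)) ℤ k) = esy i k x := by
    intro k
    unfold esymm esy
    simp only [map_sum, map_prod, aeval_X, hy]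
  rw [h5, ← h2]
  have h7 : (aeval (fun j : Fin (N i) => (esy i ((j : ℕ) + 1) : XS d N → ℂ)) P) x =
      aeval (fun j : Fin (N i) => esy i ((j : ℕ) + 1) x) P := by
    have := MvPolynomial.comp_aeval_apply (R := ℤ)
      (fun j : Fin (N i) => (esy i ((j : ℕ) + 1) : XS d N → ℂ))
      (Pi.evalAlgHom ℤ (fun _ : XS d N => ℂ) x) P
    exact this
  rw [h7, MvPolynomial.comp_aeval_apply]
  simp only [h6]

theorem block_mem (i : Fin (2 * d + 1)) (μ : Fin (N i) → ℤ) :
    (block i μ : XS d N → ℂ) ∈ A d N (∑ a, (μ a : ZMod 2) * ((i : ℕ) : ZMod 2)) := by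
  set M : ℕ := ∑ a, (μ a).natAbs with hM
  have hMa : ∀ a, 0 ≤ μ a + 2 * M := by
    intro a
    have : (μ a).natAbs ≤ M := Finset.single_le_sum (f := fun a => (μ a).natAbs)
      (fun _ _ => Nat.zero_le _) (Finset.mem_univ a)
    omega
  set μ' : Fin (N i) → ℕ := fun a => (μ a + 2 * M).toNat with hμ'
  have hμ'a : ∀ a, ((μ' a : ℕ) : ℤ) = μ a + 2 * M := fun a => Int.toNat_of_nonneg (hMa a)
  have h1 : (block i μ : XS d N → ℂ) = block i (fun a => (μ' a : ℤ)) := by
    funext x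
    unfold block
    refine Finset.sum_congr rfl fun σ _ => ?_
    have hne : ∀ y, x.1 y ≠ 0 := fun y => by
      rw [← norm_ne_zero_iff, x.2.norm]
      exact one_ne_zero
    have h2 : ∏ a, x.1 ⟨i, σ a⟩ ^ ((μ' a : ℕ) : ℤ) =
        (∏ a, x.1 ⟨i, σ a⟩ ^ μ a) * ∏ a, x.1 ⟨i, σ a⟩ ^ (2 * M) := by
      rw [← Finset.prod_mul_distrib]
      refine Finset.prod_congr rfl fun a _ => ?_
      rw [hμ'a, zpow_add₀ (hne _)]
      congr 1
    rw [h2]
    have h3 : ∏ a, x.1 ⟨i, σ a⟩ ^ (2 * M) = 1 := by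
      rw [Finset.prod_pow, Equiv.prod_comp σ (fun a => x.1 ⟨i, a⟩), pow_mul, x.2.sq i, one_pow]
    rw [h3, mul_one]
  rw [h1]
  have h4 : (∑ a, (μ a : ZMod 2) * ((i : ℕ) : ZMod 2)) = ∑ a, μ' a • ((i : ℕ) : ZMod 2) := by
    refine Finset.sum_congr rfl fun a _ => ?_
    rw [nsmul_eq_mul]
    congr 1
    have := congrArg (fun z : ℤ => (z : ZMod 2)) (hμ'a a)
    push_cast at this
    rw [this]
    have h2 : (2 : ZMod 2) = 0 := rfl
    rw [h2, zero_mul, add_zero]
  rw [h4]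
  exact block_nat_mem i μ'

/-- the parity of a character -/
def parity (l : Char d N) : ZMod 2 := ∑ y, (l y : ZMod 2) * ((y.1 : ℕ) : ZMod 2)

/-- The symmetrised character. -/
noncomputable def FF (l : Char d N) (x : XS d N) : ℂ :=
  ∑ σ : (∀ i : Fin (2 * d + 1), Equiv.Perm (Fin (N i))), ∏ y, x.1 ⟨y.1, σ y.1 y.2⟩ ^ l y

theorem FF_eq (l : Char d N) :
    (FF l : XS d N → ℂ) = ∏ i, block i (fun a => l ⟨i, a⟩) := by
  classical
  funext x
  rw [Finset.prod_apply]
  unfold FF block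
  rw [Finset.prod_univ_sum, Fintype.piFinset_univ]
  refine Finset.sum_congr rfl fun σ _ => ?_
  rw [Fintype.prod_sigma]

theorem FF_mem (l : Char d N) : (FF l : XS d N → ℂ) ∈ A d N (parity l) := by
  rw [FF_eq]
  have h := prod_mem (Finset.univ : Finset (Fin (2 * d + 1)))
    (fun i _ => block_mem (N := N) i (fun a => l ⟨i, a⟩))
  have h2 : parity l = ∑ i : Fin (2 * d + 1), ∑ a : Fin (N i),
      ((l ⟨i, a⟩ : ZMod 2)) * ((i : ℕ) : ZMod 2) := by
    unfold parity
    rw [Fintype.sum_sigma]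
  rw [h2]
  exact h

end

end Pool.Agent.H848.SH
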