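import Pool.Agent.H848.SH.Mean
import Pool.Agent.H848.SH.Sym

/-!
# The Frobenius eigenvalues
-/

set_option autoImplicit false

namespace Pool.Agent.H848.SH

open NumberField IsDedekindDomain Filter Topology Polynomial ComplexConjugate
open Pool.Agent.H921R2.TatePole (nm two_le_nm)

section
variable {K : Type} [Field K] [NumberField K] {n : ℕ} {X : Set (MvPolynomial (Fin n) (𝓞 K))}
  {d : ℕ} {N : ℕ → ℕ} {v : HeightOneSpectrum (𝓞 K)}

theorem IsFrobenius.unique {α α' : ∀ i : Fin (2 * d + 1), Fin (N i) → ℂ}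
    (h : IsFrobenius X d N v α) (h' : IsFrobenius X d N v α') (i : Fin (2 * d + 1)) :
    Finset.univ.val.map (α i) = Finset.univ.val.map (α' i) := by
  classical
  set β : (∀ i : Fin (2 * d + 1), Fin (N i) → ℂ) → ℕ → Multiset ℂ := fun α k =>
    if h : k < 2 * d + 1 then Finset.univ.val.map (α ⟨k, h⟩) else 0 with hβ
  have hβi : ∀ (α : ∀ i : Fin (2 * d + 1), Fin (N i) → ℂ) (i : Fin (2 * d + 1)),
      β α i = Finset.univ.val.map (α i) := by
    intro α i
    rw [hβ]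
    simp only [i.2, dif_pos, Fin.eta]
  have hn : ∀ α : (∀ i : Fin (2 * d + 1), Fin (N i) → ℂ), (∀ i a, ‖α i a‖ =
      (Ideal.absNorm v.asIdeal : ℝ) ^ (((i : ℕ) : ℝ) / 2)) → ∀ k, ∀ z ∈ β α k,
      ‖z‖ = (Ideal.absNorm v.asIdeal : ℝ) ^ ((k : ℝ) / 2) := by
    intro α hα k z hz
    rw [hβ] at hz
    simp only at hz
    split_ifs at hz with hk
    · obtain ⟨a, -, rfl⟩ := Multiset.mem_map.1 hz
      exact hα ⟨k, hk⟩ a
    · simp at hz
  have hsum : ∀ (α : ∀ i : Fin (2 * d + 1), Fin (N i) → ℂ) (e : ℕ),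
      ∑ k ∈ Finset.range (2 * d + 1), (-1 : ℂ) ^ k * ((β α k).map (fun z => z ^ e)).sum =
      ∑ i : Fin (2 * d + 1), (-1 : ℂ) ^ (i : ℕ) * ∑ a, α i a ^ e := by
    intro α e
    rw [Finset.sum_range]
    refine Finset.sum_congr rfl fun i _ => ?_
    rw [hβi, Multiset.map_map]
    rfl
  rw [← hβi, ← hβi]
  refine mult_unique (D := 2 * d + 1) (one_lt_norm v)
    (hn α h.1) (hn α' h'.1) (fun e he => ?_) i.2
  rw [hsum, hsum]
  obtain ⟨κ, _, _, φ, hk, hc⟩ := exists_ext v e he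
  have e1 := h.2 κ φ e hk hc
  rw [h'.2 κ φ e hk hc] at e1
  refine (mul_left_cancel₀ ?_ e1).symm
  have h4 : (1 : ℝ) < (Ideal.absNorm v.asIdeal : ℝ) ^ e :=
    one_lt_pow₀ (one_lt_norm v) (by omega)
  intro h5
  have h6 : ((Ideal.absNorm v.asIdeal : ℂ) ^ e) = 1 := sub_eq_zero.1 h5
  have h7 : ((Ideal.absNorm v.asIdeal : ℝ) ^ e) = 1 := by exact_mod_cast h6
  linarith

theorem IsFrobenius.conj {α : ∀ i : Fin (2 * d + 1), Fin (N i) → ℂ}
    (h : IsFrobenius X d N v α) : IsFrobenius X d N v (fun i a => conj (α i a)) := by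
  refine ⟨fun i a => by rw [Complex.norm_conj]; exact h.1 i a, fun κ _ _ φ e hk hc => ?_⟩
  have e1 := congrArg conj (h.2 κ φ e hk hc)
  rw [Complex.conj_natCast] at e1
  rw [e1, map_mul, map_sub, map_pow, map_one, Complex.conj_natCast, map_sum]
  congr 1
  refine Finset.sum_congr rfl fun k _ => ?_
  rw [map_mul, map_pow, map_neg, map_one, map_sum]
  congr 1
  refine Finset.sum_congr rfl fun a _ => ?_
  rw [map_pow]

/-- the normalised eigenvalues -/
noncomputable def nrmz (v : HeightOneSpectrum (𝓞 K)) (α : ∀ i : Fin (2 * d + 1), Fin (N i) → ℂ)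
    (y : (i : Fin (2 * d + 1)) × Fin (N i)) : ℂ :=
  α y.1 y.2 * (((nm v : ℝ) ^ (-(((y.1 : ℕ) : ℝ) / 2)) : ℝ) : ℂ)

theorem nm_pos (v : HeightOneSpectrum (𝓞 K)) : (0 : ℝ) < nm v := by
  have := two_le_nm v
  exact_mod_cast (by omega : 0 < nm v)

theorem adm_nrmz {α : ∀ i : Fin (2 * d + 1), Fin (N i) → ℂ} (h : IsFrobenius X d N v α) :
    Adm (nrmz v α) := by
  have hnorm : ∀ y, ‖nrmz v α y‖ = 1 := by
    intro y
    unfold nrmz
    rw [norm_mul, h.1, Complex.norm_real, Real.norm_eq_abs,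
      abs_of_nonneg (Real.rpow_nonneg (nm_pos v).le _)]
    have e1 : (Ideal.absNorm v.asIdeal : ℝ) = nm v := rfl
    rw [e1, ← Real.rpow_add (nm_pos v), add_neg_cancel, Real.rpow_zero]
  refine ⟨hnorm, fun i => ?_⟩
  set P : ℂ := ∏ a : Fin (N i), nrmz v α ⟨i, a⟩ with hP
  have h1 : ‖P‖ = 1 := by
    rw [hP, norm_prod]
    exact Finset.prod_eq_one fun a _ => hnorm _
  have h2 : conj P = P := by
    rw [hP, map_prod]
    have h3 := congrArg (fun s : Multiset ℂ =>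
      (s.map fun z => z * (((nm v : ℝ) ^ (-(((i : ℕ) : ℝ) / 2)) : ℝ) : ℂ)).prod)
      (h.conj.unique h i)
    simp only [Multiset.map_map] at h3
    refine Eq.trans ?_ h3
    refine Finset.prod_congr rfl fun a _ => ?_
    unfold nrmz
    rw [map_mul, Complex.conj_ofReal]
    rfl
  have h4 : P * conj P = 1 := by
    rw [Complex.mul_conj, Complex.normSq_eq_norm_sq, h1]
    simp
  rw [h2] at h4
  rw [sq]
  exact h4

theorem adm_one : Adm (fun _ : (i : Fin (2 * d + 1)) × Fin (N i) => (1 : ℂ)) :=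
  ⟨fun _ => by simp, fun _ => by simp⟩

theorem esy_eq (i : Fin (2 * d + 1)) (k : ℕ) (x : XS d N) :
    esy i k x = (Finset.univ.val.map fun a : Fin (N i) => x.1 ⟨i, a⟩).esymm k := by
  unfold esy
  rw [Finset.esymm_map_val]

theorem ew_congr {r : ℕ} (w : Fin r → Fin (2 * d + 1) × ℕ) {x x' : XS d N}
    (h : ∀ i : Fin (2 * d + 1), Finset.univ.val.map (fun a : Fin (N i) => x.1 ⟨i, a⟩) =
      Finset.univ.val.map fun a : Fin (N i) => x'.1 ⟨i, a⟩) : ew w x = ew w x' := by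
  unfold ew
  refine Finset.prod_congr rfl fun j _ => ?_
  rw [esy_eq, esy_eq, h]

variable (X d N) in
open Classical in
/-- the chosen family of normalised eigenvalues -/
noncomputable def xv (v : HeightOneSpectrum (𝓞 K)) : XS d N :=
  if h : ∃ α, IsFrobenius X d N v α then ⟨nrmz v h.choose, adm_nrmz h.choose_spec⟩
  else ⟨fun _ => 1, adm_one⟩

theorem xv_map {α : ∀ i : Fin (2 * d + 1), Fin (N i) → ℂ} (h : IsFrobenius X d N v α)
    (i : Fin (2 * d + 1)) : Finset.univ.val.map (fun a : Fin (N i) => (xv X d N v).1 ⟨i, a⟩) =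
      Finset.univ.val.map fun a : Fin (N i) => nrmz v α ⟨i, a⟩ := by
  unfold xv
  have hex : ∃ α, IsFrobenius X d N v α := ⟨α, h⟩
  rw [dif_pos hex]
  have h3 := congrArg (fun s : Multiset ℂ =>
      s.map fun z => z * (((nm v : ℝ) ^ (-(((i : ℕ) : ℝ) / 2)) : ℝ) : ℂ))
      (hex.choose_spec.unique h i)
  simp only [Multiset.map_map] at h3
  exact h3

theorem ew_xv {r : ℕ} (w : Fin r → Fin (2 * d + 1) × ℕ)
    {α : ∀ i : Fin (2 * d + 1), Fin (N i) → ℂ} (h : IsFrobenius X d N v α) :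
    ew w (xv X d N v) = ∑ S ∈ basis N w, (∏ j, ∏ a ∈ S j, α (w j).1 a) *
      ((nm v : ℕ) : ℂ) ^ (-(((weight w : ℝ) / 2 : ℝ) : ℂ)) := by
  rw [ew_congr w (x' := ⟨nrmz v α, adm_nrmz h⟩) (xv_map h), ew_eq]
  refine Finset.sum_congr rfl fun S hS => ?_
  have hS' : ∀ j, (S j).card = (w j).2 := by
    intro j
    have := (Fintype.mem_piFinset.1 hS) j
    exact (Finset.mem_powersetCard.1 this).2
  unfold nrmz
  simp only
  have e1 : ∀ j, ∏ a ∈ S j, (α (w j).1 a * (((nm v : ℝ) ^ (-((((w j).1 : ℕ) : ℝ) / 2)) : ℝ) : ℂ)) =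
      (∏ a ∈ S j, α (w j).1 a) *
        (((nm v : ℝ) ^ (-((((w j).1 : ℕ) : ℝ) / 2) * (w j).2) : ℝ) : ℂ) := by
    intro j
    rw [Finset.prod_mul_distrib, Finset.prod_const, hS' j, ← Complex.ofReal_pow,
      ← Real.rpow_natCast, ← Real.rpow_mul (nm_pos v).le]
  simp only [e1]
  rw [Finset.prod_mul_distrib]
  congr 1
  rw [← Complex.ofReal_prod, ← Complex.ofReal_natCast, ← Complex.ofReal_neg,
    ← Complex.ofReal_cpow (nm_pos v).le]
  congr 1
  rw [← Real.rpow_sum_of_pos (nm_pos v)]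
  congr 1
  unfold weight
  push_cast
  rw [Finset.sum_div, ← Finset.sum_neg_distrib]
  refine Finset.sum_congr rfl fun j _ => ?_
  ring

theorem norm_esy_le (i : Fin (2 * d + 1)) (k : ℕ) (x : XS d N) :
    ‖esy i k x‖ ≤ ((N i).choose k : ℝ) := by
  unfold esy
  refine (norm_sum_le _ _).trans ?_
  rw [Finset.sum_congr rfl (fun S _ => by
    rw [norm_prod]
    exact Finset.prod_eq_one fun a _ => x.2.norm _ : ∀ S ∈
      (Finset.univ : Finset (Fin (N i))).powersetCard k, ‖∏ a ∈ S, x.1 ⟨i, a⟩‖ = 1)]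
  simp

theorem norm_ew_le {r : ℕ} (w : Fin r → Fin (2 * d + 1) × ℕ) (x : XS d N) :
    ‖ew w x‖ ≤ ∏ j, ((N (w j).1).choose (w j).2 : ℝ) := by
  unfold ew
  rw [norm_prod]
  exact Finset.prod_le_prod (fun _ _ => norm_nonneg _) fun j _ => norm_esy_le _ _ _

/-- The order of the pole is a mean value. -/
theorem mean_of_pole {r : ℕ} {w : Fin r → Fin (2 * d + 1) × ℕ} {ρ : ℤ}
    (h : HasPole X d N w ρ) : HasMean (fun v => (ew w (xv X d N v)).re) ρ := by
  classical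
  obtain ⟨B, ⟨hB1, hB2⟩, hB3⟩ := h
  set α : HeightOneSpectrum (𝓞 K) → ∀ i : Fin (2 * d + 1), Fin (N i) → ℂ := fun v =>
    if h : ∃ α : ∀ i : Fin (2 * d + 1), Fin (N i) → ℂ, IsFrobenius X d N v α ∧
      ∀ z : ℂ, (B v).eval z = ∏ S ∈ basis N w, (1 - (∏ j, ∏ a ∈ S j, α (w j).1 a) * z)
    then h.choose else fun _ _ => 0 with hα
  have hα' : ∀ᶠ v in cofinite, IsFrobenius X d N v (α v) ∧
      ∀ z : ℂ, (B v).eval z = ∏ S ∈ basis N w, (1 - (∏ j, ∏ a ∈ S j, α v (w j).1 a) * z) := by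
    filter_upwards [hB1] with v hv
    rw [hα]
    simp only [dif_pos hv]
    exact hv.choose_spec
  have hcast : (((weight w : ℝ) / 2 : ℝ) : ℂ) = (weight w : ℂ) / 2 := by
    push_cast
    ring
  refine mean_of_system (basis N w) ((weight w : ℝ) / 2) B
    (fun v S => ∏ j, ∏ a ∈ S j, α v (w j).1 a) ?_ (fun v => ?_) ρ ?_ _ _
    (fun v => (Complex.abs_re_le_norm _).trans (norm_ew_le w _)) ?_
  · filter_upwards [hα'] with v hv
    refine ⟨fun S hS => ?_, hv.2⟩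
    have hS' : ∀ j, (S j).card = (w j).2 := by
      intro j
      have := (Fintype.mem_piFinset.1 hS) j
      exact (Finset.mem_powersetCard.1 this).2
    rw [norm_prod]
    have e1 : ∀ j, ‖∏ a ∈ S j, α v (w j).1 a‖ =
        (nm v : ℝ) ^ ((((w j).1 : ℕ) : ℝ) / 2 * (w j).2) := by
      intro j
      rw [norm_prod, Finset.prod_congr rfl fun a _ => hv.1.1 (w j).1 a, Finset.prod_const, hS' j,
        ← Real.rpow_natCast, ← Real.rpow_mul (Nat.cast_nonneg _)]
      rfl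
    rw [Finset.prod_congr rfl fun j _ => e1 j, ← Real.rpow_sum_of_pos (nm_pos v)]
    congr 1
    unfold weight
    push_cast
    rw [Finset.sum_div]
    refine Finset.sum_congr rfl fun j _ => ?_
    ring
  · rw [hcast]
    exact hB2 v
  · rw [hcast]
    exact hB3
  · filter_upwards [hα'] with v hv
    rw [ew_xv w hv.1]

end

end Pool.Agent.H848.SH
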