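import Pool.Agent.H848.SH.Frob
import Pool.Agent.H848.PD.Structure

/-!
# The shape of the orders
-/

set_option autoImplicit false

namespace Pool.Agent.H848.SH

open NumberField IsDedekindDomain Filter Topology Polynomial ComplexConjugate
open Pool.Agent.H921R2.TatePole (nm two_le_nm)
open Pool.Agent.H848.PD (IsPD)

section
variable {K : Type} [Field K] [NumberField K] {n : ℕ} {X : Set (MvPolynomial (Fin n) (𝓞 K))}
  {d : ℕ} {N : ℕ → ℕ}

variable (X d N) in
/-- the hypothesis: all orders exist -/
def AllOrders : Prop :=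
  ∀ (r : ℕ) (w : Fin r → Fin (2 * d + 1) × ℕ), Even (weight w) → ∃ ρ : ℤ, HasPole X d N w ρ

/-- integral mean values -/
theorem mean_of_mem (H : AllOrders X d N) {φ : XS d N → ℂ} (hφ : φ ∈ A d N 0) :
    (∃ C : ℝ, ∀ x, ‖φ x‖ ≤ C) ∧ ∃ l : ℤ, HasMean (fun v => (φ (xv X d N v)).re) l := by
  unfold A at hφ
  induction hφ using AddSubgroup.closure_induction with
  | mem φ h =>
    obtain ⟨r, w, hw, rfl⟩ := h
    refine ⟨⟨_, norm_ew_le w⟩, ?_⟩
    have heven : Even (weight w) := by
      rw [ZMod.natCast_eq_zero_iff_even] at hw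
      exact hw
    obtain ⟨ρ, hρ⟩ := H r w heven
    exact ⟨ρ, mean_of_pole hρ⟩
  | zero =>
    refine ⟨⟨0, fun x => by simp⟩, 0, ?_⟩
    simpa using HasMean.zero (K := K)
  | add φ ψ _ _ h h' =>
    obtain ⟨⟨C, hC⟩, l, hl⟩ := h
    obtain ⟨⟨C', hC'⟩, l', hl'⟩ := h'
    refine ⟨⟨C + C', fun x => (norm_add_le _ _).trans (add_le_add (hC x) (hC' x))⟩, l + l', ?_⟩
    have := hl.add hl' (fun v => (Complex.abs_re_le_norm _).trans (hC _))
      (fun v => (Complex.abs_re_le_norm _).trans (hC' _))
    simpa using this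
  | neg φ _ h =>
    obtain ⟨⟨C, hC⟩, l, hl⟩ := h
    refine ⟨⟨C, fun x => by simpa using hC x⟩, -l, ?_⟩
    simpa using hl.neg

theorem FF_bound (l : Char d N) (x : XS d N) :
    ‖FF l x‖ ≤ ∏ i : Fin (2 * d + 1), ((N i).factorial : ℝ) := by
  unfold FF
  refine (norm_sum_le _ _).trans ?_
  rw [Finset.sum_congr rfl (fun σ _ => by
    rw [norm_prod]
    refine Finset.prod_eq_one fun y _ => ?_
    rw [norm_zpow, x.2.norm, one_zpow] : ∀ σ ∈ (Finset.univ : Finset
      (∀ i : Fin (2 * d + 1), Equiv.Perm (Fin (N i)))),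
      ‖∏ y : (i : Fin (2 * d + 1)) × Fin (N i), x.1 ⟨y.1, σ y.1 y.2⟩ ^ l y‖ = 1)]
  rw [Finset.sum_const, nsmul_eq_mul, mul_one, Finset.card_univ, Fintype.card_pi]
  simp [Fintype.card_perm]

theorem FF_neg (l : Char d N) (x : XS d N) : FF (-l) x = conj (FF l x) := by
  unfold FF
  rw [map_sum]
  refine Finset.sum_congr rfl fun σ _ => ?_
  rw [map_prod]
  refine Finset.prod_congr rfl fun y _ => ?_
  rw [map_zpow₀, Pi.neg_apply, zpow_neg, ← inv_zpow, Complex.inv_eq_conj (x.2.norm _)]

open Classical in
/-- the Fourier coefficients of the limit measure -/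
noncomputable def bb (H : AllOrders X d N) (l : Char d N) : ℤ :=
  if h : parity l = 0 then (mean_of_mem H (φ := FF l) (h ▸ FF_mem l)).2.choose else 0

theorem bb_mean (H : AllOrders X d N) {l : Char d N} (h : parity l = 0) :
    HasMean (fun v => (FF l (xv X d N v)).re) (bb H l) := by
  unfold bb
  rw [dif_pos h]
  exact (mean_of_mem H (φ := FF l) (h ▸ FF_mem l)).2.choose_spec

theorem bb_odd (H : AllOrders X d N) {l : Char d N} (h : parity l ≠ 0) : bb H l = 0 := by
  unfold bb
  rw [dif_neg h]

theorem parity_add (l l' : Char d N) : parity (l + l') = parity l + parity l' := by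
  unfold parity
  rw [← Finset.sum_add_distrib]
  refine Finset.sum_congr rfl fun y _ => ?_
  rw [Pi.add_apply, Int.cast_add]
  ring

theorem parity_neg (l : Char d N) : parity (-l) = -parity l := by
  unfold parity
  rw [← Finset.sum_neg_distrib]
  refine Finset.sum_congr rfl fun y _ => ?_
  rw [Pi.neg_apply, Int.cast_neg]
  ring

theorem parity_sub (l l' : Char d N) : parity (l - l') = parity l - parity l' := by
  rw [sub_eq_add_neg, parity_add, parity_neg, sub_eq_add_neg]

/-- the monomial -/
noncomputable def mo (l : Char d N) (x : XS d N)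
    (σ : ∀ i : Fin (2 * d + 1), Equiv.Perm (Fin (N i))) : ℂ :=
  ∏ y : (i : Fin (2 * d + 1)) × Fin (N i), x.1 ⟨y.1, σ y.1 y.2⟩ ^ l y

theorem FF_mo (l : Char d N) (x : XS d N) : FF l x = ∑ σ, mo l x σ := rfl

theorem xne (x : XS d N) (y : (i : Fin (2 * d + 1)) × Fin (N i)) : x.1 y ≠ 0 := by
  rw [← norm_ne_zero_iff, x.2.norm]
  exact one_ne_zero

theorem mo_sub (l l' : Char d N) (x : XS d N)
    (σ : ∀ i : Fin (2 * d + 1), Equiv.Perm (Fin (N i))) :
    mo (l - l') x σ = mo l x σ * conj (mo l' x σ) := by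
  unfold mo
  rw [map_prod, ← Finset.prod_mul_distrib]
  refine Finset.prod_congr rfl fun y _ => ?_
  rw [Pi.sub_apply, zpow_sub₀ (xne x _), map_zpow₀, ← Complex.inv_eq_conj (x.2.norm _), inv_zpow,
    div_eq_mul_inv]

theorem mo_add (l l' : Char d N) (x : XS d N)
    (σ : ∀ i : Fin (2 * d + 1), Equiv.Perm (Fin (N i))) :
    mo (l + l') x σ = mo l x σ * mo l' x σ := by
  unfold mo
  rw [← Finset.prod_mul_distrib]
  refine Finset.prod_congr rfl fun y _ => ?_
  rw [Pi.add_apply, zpow_add₀ (xne x _)]

theorem mo_zero (x : XS d N) (σ : ∀ i : Fin (2 * d + 1), Equiv.Perm (Fin (N i))) :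
    mo (0 : Char d N) x σ = 1 := by
  unfold mo
  simp

theorem mo_sum {ι : Type*} (s : Finset ι) (l : ι → Char d N) (x : XS d N)
    (σ : ∀ i : Fin (2 * d + 1), Equiv.Perm (Fin (N i))) :
    mo (∑ j ∈ s, l j) x σ = ∏ j ∈ s, mo (l j) x σ := by
  classical
  induction s using Finset.induction_on with
  | empty => simp [mo_zero]
  | insert j s hj ih => rw [Finset.sum_insert hj, Finset.prod_insert hj, mo_add, ih]

theorem mo_single (y : (i : Fin (2 * d + 1)) × Fin (N i)) (x : XS d N)
    (σ : ∀ i : Fin (2 * d + 1), Equiv.Perm (Fin (N i))) :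
    mo (Pi.single y 1 : Char d N) x σ = x.1 ⟨y.1, σ y.1 y.2⟩ := by
  unfold mo
  rw [Finset.prod_eq_single y]
  · rw [Pi.single_eq_same, zpow_one]
  · intro z _ hz
    rw [Pi.single_eq_of_ne hz, zpow_zero]
  · intro h
    exact absurd (Finset.mem_univ _) h

/-- the coefficients are positive definite -/
theorem bb_pd (H : AllOrders X d N) : IsPD (bb H) := by
  classical
  refine ⟨fun l => ?_, fun c => ?_⟩
  · by_cases h : parity l = 0
    · have h' : parity (-l) = 0 := by rw [parity_neg, h, neg_zero]
      have h1 := bb_mean H h'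
      have h2 := bb_mean H h
      have h3 : (fun v => (FF (-l) (xv X d N v)).re) = fun v => (FF l (xv X d N v)).re := by
        funext v
        rw [FF_neg, Complex.conj_re]
      rw [h3] at h1
      have h4 := h1.unique h2
      exact_mod_cast h4
    · have h' : parity (-l) ≠ 0 := by
        rw [parity_neg]
        intro h1
        exact h (neg_eq_zero.1 h1)
      rw [bb_odd H h, bb_odd H h']
  · set T := c.support with hT
    set M : ℝ := ∏ i : Fin (2 * d + 1), ((N i).factorial : ℝ) with hM
    set g : Char d N → Char d N → HeightOneSpectrum (𝓞 K) → ℝ := fun l l' v =>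
      if parity l = parity l' then c l * c l' * (FF (l - l') (xv X d N v)).re else 0 with hg
    have hM0 : 0 ≤ M := Finset.prod_nonneg fun i _ => Nat.cast_nonneg _
    have hgB : ∀ l l' v, |g l l' v| ≤ |c l| * |c l'| * M := by
      intro l l' v
      rw [hg]
      simp only
      split_ifs
      · rw [abs_mul, abs_mul]
        exact mul_le_mul_of_nonneg_left ((Complex.abs_re_le_norm _).trans (FF_bound _ _))
          (by positivity)
      · rw [abs_zero]
        positivity
    have hgm : ∀ l l', HasMean (g l l') (c l * c l' * (bb H (l - l') : ℝ)) := by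
      intro l l'
      rw [hg]
      simp only
      by_cases h : parity l = parity l'
      · simp only [if_pos h]
        exact (bb_mean H (by rw [parity_sub, h, sub_self])).const_mul _
      · simp only [if_neg h]
        rw [bb_odd H (by rw [parity_sub]; exact sub_ne_zero.2 h)]
        simpa using HasMean.zero (K := K)
    have h1 : HasMean (fun v => ∑ l ∈ T, ∑ l' ∈ T, g l l' v)
        (∑ l ∈ T, ∑ l' ∈ T, c l * c l' * (bb H (l - l') : ℝ)) := by
      refine HasMean.sum T (B := fun l => ∑ l' ∈ T, |c l| * |c l'| * M) (fun l _ => ?_)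
        fun l _ v => ?_
      · exact HasMean.sum T (B := fun l' => |c l| * |c l'| * M) (fun l' _ => hgm l l')
          fun l' _ v => hgB l l' v
      · refine (Finset.abs_sum_le_sum_abs _ _).trans (Finset.sum_le_sum fun l' _ => hgB l l' v)
    refine h1.nonneg fun v => ?_
    -- a sum of squares
    set x := xv X d N v
    have h2 : ∑ l ∈ T, ∑ l' ∈ T, g l l' v =
        ∑ σ, ∑ e : ZMod 2, ‖∑ l ∈ T.filter (fun l => parity l = e), (c l : ℂ) * mo l x σ‖ ^ 2 := by
      have e1 : ∀ σ, ∀ e : ZMod 2,
          ‖∑ l ∈ T.filter (fun l => parity l = e), (c l : ℂ) * mo l x σ‖ ^ 2 =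
          ∑ l ∈ T, ∑ l' ∈ T, if parity l = e ∧ parity l' = e then
            c l * c l' * (mo (l - l') x σ).re else 0 := by
        intro σ e
        rw [← Complex.normSq_eq_norm_sq]
        have e2 : ((Complex.normSq (∑ l ∈ T.filter (fun l => parity l = e),
            (c l : ℂ) * mo l x σ) : ℝ) : ℂ) = ∑ l ∈ T.filter (fun l => parity l = e),
            ∑ l' ∈ T.filter (fun l => parity l = e), ((c l * c l' : ℝ) : ℂ) * mo (l - l') x σ := by
          rw [← Complex.mul_conj, map_sum, Finset.sum_mul_sum]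
          refine Finset.sum_congr rfl fun l _ => Finset.sum_congr rfl fun l' _ => ?_
          rw [map_mul, Complex.conj_ofReal, mo_sub]
          push_cast
          ring
        have e3 := congrArg Complex.re e2
        rw [Complex.ofReal_re] at e3
        rw [e3, Complex.re_sum, Finset.sum_filter]
        refine Finset.sum_congr rfl fun l _ => ?_
        split_ifs with h
        · rw [Complex.re_sum, Finset.sum_filter]
          refine Finset.sum_congr rfl fun l' _ => ?_
          by_cases h' : parity l' = e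
          · rw [if_pos h', if_pos ⟨h, h'⟩, Complex.re_ofReal_mul]
          · rw [if_neg h', if_neg fun h2 => h' h2.2]
        · refine (Finset.sum_eq_zero fun l' _ => ?_).symm
          rw [if_neg fun h2 => h h2.1]
      simp only [e1]
      have e4 : ∀ l ∈ T, ∀ l' ∈ T, g l l' v = ∑ σ, ∑ e : ZMod 2,
          if parity l = e ∧ parity l' = e then c l * c l' * (mo (l - l') x σ).re else 0 := by
        intro l _ l' _
        rw [hg]
        simp only
        by_cases h : parity l = parity l'
        · rw [if_pos h, FF_mo, Complex.re_sum, Finset.mul_sum]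
          refine Finset.sum_congr rfl fun σ _ => ?_
          rw [Finset.sum_eq_single (parity l)]
          · rw [if_pos ⟨rfl, h.symm⟩]
          · intro e _ he
            rw [if_neg fun h2 => he h2.1.symm]
          · intro h2
            exact absurd (Finset.mem_univ _) h2
        · rw [if_neg h]
          refine (Finset.sum_eq_zero fun σ _ => Finset.sum_eq_zero fun e _ => ?_).symm
          rw [if_neg fun h2 => h (h2.1.trans h2.2.symm)]
      rw [Finset.sum_congr rfl fun l hl => Finset.sum_congr rfl fun l' hl' => e4 l hl l' hl']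
      have e5 : ∀ l ∈ T, (∑ l' ∈ T, ∑ σ, ∑ e : ZMod 2,
          if parity l = e ∧ parity l' = e then c l * c l' * (mo (l - l') x σ).re else 0) =
          ∑ σ, ∑ e : ZMod 2, ∑ l' ∈ T,
          if parity l = e ∧ parity l' = e then c l * c l' * (mo (l - l') x σ).re else 0 := by
        intro l _
        rw [Finset.sum_comm]
        refine Finset.sum_congr rfl fun σ _ => ?_
        rw [Finset.sum_comm]
      rw [Finset.sum_congr rfl e5, Finset.sum_comm]
      refine Finset.sum_congr rfl fun σ _ => ?_
      rw [Finset.sum_comm]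
    rw [h2]
    positivity

/-- the trace and the characters of the basis vectors -/
theorem sum_FF {r : ℕ} (w : Fin r → Fin (2 * d + 1) × ℕ) (x : XS d N) :
    ∑ S ∈ basis N w, FF (char w S) x = (∏ i : Fin (2 * d + 1), ((N i).factorial : ℂ)) * ew w x := by
  have h1 : ∀ σ : (∀ i : Fin (2 * d + 1), Equiv.Perm (Fin (N i))),
      ∑ S ∈ basis N w, mo (char w S) x σ = ew w x := by
    intro σ
    have hadm : Adm (fun y : (i : Fin (2 * d + 1)) × Fin (N i) => x.1 ⟨y.1, σ y.1 y.2⟩) := by
      refine ⟨fun y => x.2.norm _, fun i => ?_⟩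
      have := Equiv.prod_comp (σ i) (fun a => x.1 ⟨i, a⟩)
      simp only
      rw [this]
      exact x.2.sq i
    have h2 : ew w x = ew w ⟨_, hadm⟩ := by
      refine ew_congr w fun i => ?_
      simp only
      have : (fun a : Fin (N i) => x.1 ⟨i, σ i a⟩) = (fun a : Fin (N i) => x.1 ⟨i, a⟩) ∘ σ i := rfl
      rw [this, ← Multiset.map_map, ← Finset.map_univ_equiv (σ i)]
      simp
    rw [h2, ew_eq]
    refine Finset.sum_congr rfl fun S _ => ?_
    unfold char
    rw [mo_sum]
    refine Finset.prod_congr rfl fun j _ => ?_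
    rw [mo_sum]
    refine Finset.prod_congr rfl fun a _ => ?_
    rw [mo_single]
  simp only [FF_mo]
  rw [Finset.sum_comm, Finset.sum_congr rfl fun σ _ => h1 σ, Finset.sum_const, nsmul_eq_mul,
    Finset.card_univ, Fintype.card_pi]
  congr 1
  push_cast
  refine Finset.prod_congr rfl fun i _ => ?_
  rw [Fintype.card_perm, Fintype.card_fin]

theorem parity_char {r : ℕ} (w : Fin r → Fin (2 * d + 1) × ℕ)
    {S : ∀ j, Finset (Fin (N (w j).1))} (hS : S ∈ basis N w) :
    parity (char w S) = (weight w : ZMod 2) := by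
  have hS' : ∀ j, (S j).card = (w j).2 := by
    intro j
    have := (Fintype.mem_piFinset.1 hS) j
    exact (Finset.mem_powersetCard.1 this).2
  have hsum : ∀ {ι : Type} (s : Finset ι) (l : ι → Char d N),
      parity (∑ j ∈ s, l j) = ∑ j ∈ s, parity (l j) := by
    classical
    intro ι s l
    induction s using Finset.induction_on with
    | empty => simp [parity]
    | insert j s hj ih => rw [Finset.sum_insert hj, Finset.sum_insert hj, parity_add, ih]
  have hsingle : ∀ y : (i : Fin (2 * d + 1)) × Fin (N i),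
      parity (Pi.single y 1 : Char d N) = ((y.1 : ℕ) : ZMod 2) := by
    intro y
    unfold parity
    rw [Finset.sum_eq_single y]
    · simp
    · intro z _ hz
      rw [Pi.single_eq_of_ne hz]
      simp
    · intro h
      exact absurd (Finset.mem_univ _) h
  unfold char weight
  rw [hsum]
  push_cast
  refine Finset.sum_congr rfl fun j _ => ?_
  rw [hsum, Finset.sum_congr rfl fun a _ => hsingle _]
  have e1 : ∑ a ∈ S j, ((((⟨(w j).1, a⟩ : (i : Fin (2 * d + 1)) × Fin (N i)).1 : ℕ)) : ZMod 2) =
      ∑ _a ∈ S j, (((w j).1 : ℕ) : ZMod 2) := rfl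
  rw [e1, Finset.sum_const, hS' j, nsmul_eq_mul]
  ring

/-- the orders and the coefficients -/
theorem order_eq (H : AllOrders X d N) {r : ℕ} (w : Fin r → Fin (2 * d + 1) × ℕ)
    (hw : Even (weight w)) {ρ : ℤ} (hρ : HasPole X d N w ρ) :
    (∏ i : Fin (2 * d + 1), ((N i).factorial : ℤ)) * ρ = ∑ S ∈ basis N w, bb H (char w S) := by
  have hw' : (weight w : ZMod 2) = 0 := (ZMod.natCast_eq_zero_iff_even).2 hw
  have h1 : HasMean (fun v => ∑ S ∈ basis N w, (FF (char w S) (xv X d N v)).re)
      (∑ S ∈ basis N w, (bb H (char w S) : ℝ)) :=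
    HasMean.sum _ (fun S hS => bb_mean H (by rw [parity_char w hS, hw']))
      fun S _ v => (Complex.abs_re_le_norm _).trans (FF_bound _ _)
  have h2 := (mean_of_pole hρ).const_mul (∏ i : Fin (2 * d + 1), ((N i).factorial : ℝ))
  have h3 : (fun v => ∑ S ∈ basis N w, (FF (char w S) (xv X d N v)).re) =
      fun v => (∏ i : Fin (2 * d + 1), ((N i).factorial : ℝ)) * (ew w (xv X d N v)).re := by
    funext v
    rw [← Complex.re_sum, sum_FF]
    have : (∏ i : Fin (2 * d + 1), ((N i).factorial : ℂ)) =
        ((∏ i : Fin (2 * d + 1), ((N i).factorial : ℝ) : ℝ) : ℂ) := by push_cast; rfl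
    rw [this, Complex.re_ofReal_mul]
  rw [h3] at h1
  have h4 := h2.unique h1
  exact_mod_cast h4

end

end Pool.Agent.H848.SH
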