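import Pool.Agent.H848.SH.Base
import Pool.Agent.H848.SH.Defs

/-!
# Mean values over the primes, and the orders of Euler products
-/

set_option autoImplicit false

namespace Pool.Agent.H848.SH

open NumberField IsDedekindDomain Filter Topology Polynomial
open Pool.Agent.W540.BE (EP EP_add EP_sum EP_const_mul EP_nonneg summable_EP sizeP norm_cpowP)
open Pool.Agent.H921R2.TatePole (nm two_le_nm)

theorem logInv : Tendsto (fun ε : ℝ => Real.log (1 / ε)) (𝓝[>] 0) atTop := by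
  have h1 := tendsto_neg_atBot_atTop.comp Real.tendsto_log_nhdsGT_zero
  refine h1.congr fun ε => ?_
  rw [one_div, Real.log_inv]
  rfl

section
variable {K : Type} [Field K] [NumberField K]

/-- the mean value of a function on the primes of `K` -/
def HasMean (φ : HeightOneSpectrum (𝓞 K) → ℝ) (l : ℝ) : Prop :=
  Tendsto (fun ε => EP (fun v : HeightOneSpectrum (𝓞 K) => nm v) ε φ / Real.log (1 / ε)) (𝓝[>] 0) (𝓝 l)

theorem HasMean.unique {φ : HeightOneSpectrum (𝓞 K) → ℝ} {l l' : ℝ} (h : HasMean φ l)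
    (h' : HasMean φ l') : l = l' := tendsto_nhds_unique h h'

theorem HasMean.const_mul {φ : HeightOneSpectrum (𝓞 K) → ℝ} {l : ℝ} (c : ℝ) (h : HasMean φ l) :
    HasMean (fun p => c * φ p) (c * l) := by
  refine (Tendsto.const_mul c h).congr fun ε => ?_
  rw [EP_const_mul, mul_div_assoc]

theorem HasMean.neg {φ : HeightOneSpectrum (𝓞 K) → ℝ} {l : ℝ} (h : HasMean φ l) :
    HasMean (fun p => -φ p) (-l) := by
  have := h.const_mul (-1)
  simpa using this

theorem HasMean.zero : HasMean (fun _ : HeightOneSpectrum (𝓞 K) => 0) 0 := by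
  unfold HasMean EP
  simp

theorem HasMean.one : HasMean (fun _ : HeightOneSpectrum (𝓞 K) => 1) 1 := by
  obtain ⟨C, hC⟩ := EP_one_bdd K
  have h1 : Tendsto (fun ε : ℝ => C / Real.log (1 / ε)) (𝓝[>] 0) (𝓝 0) :=
    tendsto_const_nhds.div_atTop logInv
  have h2 : Tendsto (fun ε : ℝ => EP (fun v : HeightOneSpectrum (𝓞 K) => nm v) ε (fun _ => 1) / Real.log (1 / ε) - 1) (𝓝[>] 0)
      (𝓝 0) := by
    refine squeeze_zero_norm' ?_ h1
    filter_upwards [hC, logInv.eventually_gt_atTop 0] with ε h3 h4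
    have e1 : EP (fun v : HeightOneSpectrum (𝓞 K) => nm v) ε (fun _ => 1) / Real.log (1 / ε) - 1 =
        (EP (fun v : HeightOneSpectrum (𝓞 K) => nm v) ε (fun _ => 1) + Real.log ε) /
          Real.log (1 / ε) := by
      rw [div_sub_one h4.ne']
      congr 1
      rw [one_div, Real.log_inv, sub_neg_eq_add]
    rw [e1, Real.norm_eq_abs, abs_div, abs_of_pos h4]
    exact div_le_div_of_nonneg_right h3 h4.le
  have h3 := h2.add_const 1
  simpa [HasMean] using h3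

theorem HasMean.add {φ ψ : HeightOneSpectrum (𝓞 K) → ℝ} {l l' B B' : ℝ} (h : HasMean φ l)
    (h' : HasMean ψ l') (hφ : ∀ p, |φ p| ≤ B) (hψ : ∀ p, |ψ p| ≤ B') :
    HasMean (fun p => φ p + ψ p) (l + l') := by
  refine (Tendsto.add h h').congr' ?_
  filter_upwards [self_mem_nhdsWithin] with ε hε
  rw [EP_add (normSys K) hε hφ hψ, add_div]

theorem HasMean.sum {κ : Type*} (T : Finset κ) {φ : κ → HeightOneSpectrum (𝓞 K) → ℝ}
    {l B : κ → ℝ} (h : ∀ k ∈ T, HasMean (φ k) (l k)) (hB : ∀ k ∈ T, ∀ p, |φ k p| ≤ B k) :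
    HasMean (fun p => ∑ k ∈ T, φ k p) (∑ k ∈ T, l k) := by
  refine (tendsto_finsetSum T fun k hk => h k hk).congr' ?_
  filter_upwards [self_mem_nhdsWithin] with ε hε
  rw [EP_sum (normSys K) hε T φ B hB, Finset.sum_div]

theorem HasMean.nonneg {φ : HeightOneSpectrum (𝓞 K) → ℝ} {l : ℝ} (h : HasMean φ l)
    (hφ : ∀ p, 0 ≤ φ p) : 0 ≤ l := by
  refine ge_of_tendsto h ?_
  filter_upwards [logInv.eventually_gt_atTop 0] with ε hε
  exact div_nonneg (EP_nonneg hφ) hε.le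

/-- a change at finitely many primes -/
theorem HasMean.congr {φ ψ : HeightOneSpectrum (𝓞 K) → ℝ} {l B B' : ℝ} (h : HasMean φ l)
    (hφ : ∀ p, |φ p| ≤ B) (hψ : ∀ p, |ψ p| ≤ B') (he : ∀ᶠ p in cofinite, φ p = ψ p) :
    HasMean ψ l := by
  have hfin : {p | ¬ φ p = ψ p}.Finite := he
  have hneg : ∀ p, |(-1) * φ p| ≤ B := fun p => by
    rw [abs_mul, abs_neg, abs_one, one_mul]
    exact hφ p
  have h4 : ∀ p, |ψ p + (-1) * φ p| ≤ B' + B := fun p =>
    (abs_add_le _ _).trans (add_le_add (hψ p) (hneg p))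
  have h1 : HasMean (fun p => ψ p + (-1) * φ p) 0 := by
    have h2 : ∀ ε ∈ Set.Ioi (0 : ℝ), |EP (fun v : HeightOneSpectrum (𝓞 K) => nm v) ε fun p => ψ p + (-1) * φ p| ≤
        hfin.toFinset.card * (B' + B) := by
      intro ε hε
      refine EP_finsupp (normSys K) hfin.toFinset _ (fun p hp => ?_) _ (fun p => h4 p) hε
      rw [Set.Finite.mem_toFinset, Set.mem_ofPred_eq, not_not] at hp
      rw [hp]
      ring
    have h3 : Tendsto (fun ε : ℝ => hfin.toFinset.card * (B' + B) / Real.log (1 / ε)) (𝓝[>] 0)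
        (𝓝 0) := tendsto_const_nhds.div_atTop logInv
    refine squeeze_zero_norm' ?_ h3
    filter_upwards [self_mem_nhdsWithin, logInv.eventually_gt_atTop 0] with ε h4 h5
    rw [Real.norm_eq_abs, abs_div, abs_of_pos h5]
    exact div_le_div_of_nonneg_right (h2 ε h4) h5.le
  have h5 := h1.add h h4 hφ
  rw [zero_add] at h5
  have e1 : (fun p => ψ p + (-1) * φ p + φ p) = ψ := by
    funext p
    ring
  rwa [e1] at h5

/-- The order of an Euler product is the mean value of the traces. -/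
theorem mean_of_system {ι : Type*} (T : Finset ι) (c : ℝ) (B : HeightOneSpectrum (𝓞 K) → ℂ[X])
    (β : HeightOneSpectrum (𝓞 K) → ι → ℂ)
    (hgood : ∀ᶠ v in cofinite, (∀ S ∈ T, ‖β v S‖ = (nm v : ℝ) ^ c) ∧
      ∀ z, (B v).eval z = ∏ S ∈ T, (1 - β v S * z))
    (hreg : ∀ v, (B v).eval (((nm v : ℕ) : ℂ) ^ (-((c : ℂ) + 1))) ≠ 0) (ρ : ℝ)
    (hρ : Tendsto (fun ε : ℝ => Real.log ‖LFun B ((c : ℂ) + 1 + ε)‖ / Real.log (1 / ε))
      (𝓝[>] 0) (𝓝 ρ))
    (t : HeightOneSpectrum (𝓞 K) → ℝ) (M : ℝ) (ht : ∀ v, |t v| ≤ M)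
    (htg : ∀ᶠ v in cofinite, t v = (∑ S ∈ T, β v S * ((nm v : ℕ) : ℂ) ^ (-(c : ℂ))).re) :
    HasMean t ρ := by
  classical
  set Good : HeightOneSpectrum (𝓞 K) → Prop := fun v =>
    (∀ S ∈ T, ‖β v S‖ = (nm v : ℝ) ^ c) ∧ ∀ z, (B v).eval z = ∏ S ∈ T, (1 - β v S * z) with hGood
  have hfin : {v | ¬ Good v}.Finite := hgood
  set a : HeightOneSpectrum (𝓞 K) → ℂ := fun v =>
    if Good v then ∑ S ∈ T, β v S * ((nm v : ℕ) : ℂ) ^ (-(c : ℂ)) else 0 with ha
  set G : ℝ → HeightOneSpectrum (𝓞 K) → ℂ := fun ε v =>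
    ∑ S ∈ T, -Complex.log (1 - β v S * ((nm v : ℕ) : ℂ) ^ (-((c : ℂ) + 1 + ε))) with hG
  have hq2 : ∀ v : HeightOneSpectrum (𝓞 K), (2 : ℝ) ≤ nm v := fun v => by
    exact_mod_cast two_le_nm v
  have hq0 : ∀ v : HeightOneSpectrum (𝓞 K), (0 : ℝ) < nm v := fun v => by
    linarith [hq2 v]
  have hqc : ∀ v : HeightOneSpectrum (𝓞 K), ((nm v : ℕ) : ℂ) ≠ 0 := fun v => by
    have := hq0 v
    exact_mod_cast this.ne'
  have hnc : ∀ (v : HeightOneSpectrum (𝓞 K)) (s : ℂ), ‖((nm v : ℕ) : ℂ) ^ (-s)‖ =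
      (nm v : ℝ) ^ (-s.re) := fun v s => norm_cpowP (normSys K) v s
  have hab : ∀ v, ‖a v‖ ≤ T.card := by
    intro v
    rw [ha]
    simp only
    split_ifs with h
    · refine (norm_sum_le _ _).trans ?_
      rw [Finset.sum_congr rfl (fun S hS => by
        rw [norm_mul, h.1 S hS, hnc, Complex.ofReal_re, ← Real.rpow_add (hq0 v), add_neg_cancel,
          Real.rpow_zero] : ∀ S ∈ T, ‖β v S * ((nm v : ℕ) : ℂ) ^ (-(c : ℂ))‖ = 1)]
      simp
    · simp
  have hbd : ∀ ε : ℝ, 0 < ε → ∀ v, Good v → ∀ S ∈ T,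
      ‖β v S * ((nm v : ℕ) : ℂ) ^ (-((c : ℂ) + 1 + ε))‖ = (nm v : ℝ) ^ (-(1 + ε)) := by
    intro ε hε v hv S hS
    rw [norm_mul, hv.1 S hS, hnc, ← Real.rpow_add (hq0 v)]
    congr 1
    simp
    ring
  have hlt : ∀ ε : ℝ, 0 < ε → ∀ v : HeightOneSpectrum (𝓞 K), (nm v : ℝ) ^ (-(1 + ε)) ≤ 1 / 2 := by
    intro ε hε v
    have h1 : (nm v : ℝ) ^ (-(1 + ε)) ≤ (nm v : ℝ) ^ (-1 : ℝ) :=
      Real.rpow_le_rpow_of_exponent_le (by linarith [hq2 v]) (by linarith)
    refine h1.trans ?_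
    rw [Real.rpow_neg_one, inv_eq_one_div]
    exact one_div_le_one_div_of_le (by norm_num) (hq2 v)
  have hGb : ∀ ε : ℝ, 0 < ε → ∀ v, Good v →
      ‖G ε v - a v * ((nm v : ℝ) ^ (-(1 + ε)) : ℝ)‖ ≤ T.card * (nm v : ℝ) ^ (-2 : ℝ) := by
    intro ε hε v hv
    have e1 : G ε v - a v * ((nm v : ℝ) ^ (-(1 + ε)) : ℝ) = ∑ S ∈ T,
        (-Complex.log (1 - β v S * ((nm v : ℕ) : ℂ) ^ (-((c : ℂ) + 1 + ε))) -
          β v S * ((nm v : ℕ) : ℂ) ^ (-((c : ℂ) + 1 + ε))) := by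
      rw [hG, ha]
      simp only [if_pos hv]
      rw [Finset.sum_mul, ← Finset.sum_sub_distrib]
      refine Finset.sum_congr rfl fun S _ => ?_
      congr 1
      rw [mul_assoc]
      congr 1
      rw [Complex.ofReal_cpow (hq0 v).le, Complex.ofReal_natCast, ← Complex.cpow_add _ _ (hqc v)]
      congr 1
      push_cast
      ring
    rw [e1]
    refine (norm_sum_le _ _).trans ?_
    rw [← nsmul_eq_mul, ← Finset.sum_const]
    refine Finset.sum_le_sum fun S hS => ?_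
    set z := β v S * ((nm v : ℕ) : ℂ) ^ (-((c : ℂ) + 1 + ε)) with hz
    have hz1 : ‖z‖ = (nm v : ℝ) ^ (-(1 + ε)) := hbd ε hε v hv S hS
    have hz2 : ‖z‖ ≤ 1 / 2 := by rw [hz1]; exact hlt ε hε v
    have hz3 : ‖z‖ < 1 := by linarith
    have h2 := Complex.norm_log_one_sub_inv_sub_self_le hz3
    have h3 : Complex.log (1 - z)⁻¹ = -Complex.log (1 - z) := by
      refine Complex.log_inv _ ?_
      intro harg
      have h4 : (1 - z).re < 0 := by
        rw [Complex.arg_eq_pi_iff] at harg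
        exact harg.1
      have h5 : z.re ≤ ‖z‖ := Complex.re_le_norm z
      rw [Complex.sub_re, Complex.one_re] at h4
      linarith
    rw [h3] at h2
    refine h2.trans ?_
    have h6 : (1 - ‖z‖)⁻¹ / 2 ≤ 1 := by
      rw [div_le_one (by norm_num)]
      have : (1 / 2 : ℝ) ≤ 1 - ‖z‖ := by linarith
      calc (1 - ‖z‖)⁻¹ ≤ (1 / 2 : ℝ)⁻¹ := inv_anti₀ (by norm_num) this
        _ = 2 := by norm_num
    have h7 : ‖z‖ ^ 2 ≤ (nm v : ℝ) ^ (-2 : ℝ) := by
      rw [hz1, ← Real.rpow_natCast, ← Real.rpow_mul (hq0 v).le]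
      refine Real.rpow_le_rpow_of_exponent_le (by linarith [hq2 v]) ?_
      push_cast
      linarith
    calc ‖z‖ ^ 2 * (1 - ‖z‖)⁻¹ / 2 = ‖z‖ ^ 2 * ((1 - ‖z‖)⁻¹ / 2) := by ring
      _ ≤ ‖z‖ ^ 2 * 1 := mul_le_mul_of_nonneg_left h6 (by positivity)
      _ ≤ _ := by rw [mul_one]; exact h7
  have hL : ∀ ε : ℝ, 0 < ε → LFun B ((c : ℂ) + 1 + ε) = ∏' v : HeightOneSpectrum (𝓞 K),
      if Good v then Complex.exp (G ε v) else
        ((B v).eval (((nm v : ℕ) : ℂ) ^ (-(((c : ℂ) + 1) + ε))))⁻¹ := by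
    intro ε hε
    unfold LFun
    refine tprod_congr fun v => ?_
    split_ifs with h
    · rw [h.2, hG]
      simp only
      rw [Complex.exp_sum, ← Finset.prod_inv_distrib]
      refine Finset.prod_congr rfl fun S hS => ?_
      rw [Complex.exp_neg, Complex.exp_log]
      · rfl
      · intro h0
        have h1 := hbd ε hε v h S hS
        have h2 := hlt ε hε v
        rw [← h1] at h2
        rw [sub_eq_zero] at h0
        rw [← h0, norm_one] at h2
        norm_num at h2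
    · rfl
  obtain ⟨C', hC'⟩ := sizeP (N := fun v : HeightOneSpectrum (𝓞 K) => nm v) (normSys K) (Good := Good) hfin B ((c : ℂ) + 1)
    (fun v _ => hreg v) a hab (fun v hv => by rw [ha]; simp only [if_neg hv]) G hGb
    (L := fun ε => LFun B ((c : ℂ) + 1 + ε)) hL
  have h1 : HasMean (fun v => (a v).re) ρ := by
    have h2 : Tendsto (fun ε : ℝ => C' / Real.log (1 / ε)) (𝓝[>] 0) (𝓝 0) :=
      tendsto_const_nhds.div_atTop logInv
    have h4 : Tendsto (fun ε : ℝ => EP (fun v : HeightOneSpectrum (𝓞 K) => nm v) ε (fun v => (a v).re) / Real.log (1 / ε) -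
        Real.log ‖LFun B ((c : ℂ) + 1 + ε)‖ / Real.log (1 / ε)) (𝓝[>] 0) (𝓝 0) := by
      refine squeeze_zero_norm' ?_ h2
      filter_upwards [hC', logInv.eventually_gt_atTop 0] with ε h5 h6
      rw [← sub_div, Real.norm_eq_abs, abs_div, abs_of_pos h6]
      exact div_le_div_of_nonneg_right h5.2 h6.le
    have h5 := h4.add hρ
    simp only [sub_add_cancel, zero_add] at h5
    exact h5
  refine h1.congr (B := T.card) (fun v => (Complex.abs_re_le_norm _).trans (hab v)) ht ?_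
  filter_upwards [htg, hgood] with v h2 h3
  rw [h2, ha]
  simp only
  rw [if_pos h3]

end

end Pool.Agent.H848.SH
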